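import Pool.Agent.Lib.MP_f31b39_co.FV.Fin

/-!
# FV-All: tight 10- and 11-independent sets in cyclic groups
-/

namespace TightIndep.FV

open Finset

/-- `t = 11` -/
theorem eleven {n : ℕ} [NeZero n] (A : Finset (ZMod n)) (hA : Tight 11 A) :
    A.card < 400 ^ 60 := by
  rcases Nat.eq_zero_or_pos A.card with h0 | h0
  · rw [h0]
    positivity
  obtain ⟨hI, hG⟩ := hA
  obtain ⟨a, ha⟩ := fam_rel 11 A hI
  obtain ⟨m, hm⟩ : ∃ m, A.card = m + 1 := ⟨A.card - 1, by omega⟩
  clear hI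
  revert a
  generalize A.card = k at *
  subst hm
  intro a ha
  exact fin11 a ha hG

/-- `t = 10` -/
theorem ten {n : ℕ} [NeZero n] (A : Finset (ZMod n)) (hA : Tight 10 A) :
    A.card < 400 ^ 60 := by
  obtain ⟨hI, hG⟩ := hA
  obtain ⟨a, ha⟩ := fam_rel 10 A hI
  exact fin10 a ha hG

end TightIndep.FV
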