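import Pool.Agent.Lib.MP_f31b39_co.FV.Defs

/-!
# FV-CntL: the number of trivial solutions of `a + b = c + d`
-/

namespace TightIndep.FV

open Finset

theorem cnt_ge {G : Type} [AddCommGroup G] [DecidableEq G] {ι : Type} [Fintype ι] [DecidableEq ι]
    (g : ι → G) (ng : ι → ι) (hng : ∀ i, g (ng i) = - g i) (hng2 : ∀ i, ng (ng i) = i) :
    3 * Fintype.card ι ^ 2 ≤ (univ.filter fun p : ι × ι × ι × ι =>
      g p.1 + g p.2.1 - g p.2.2.1 - g p.2.2.2 = 0).card + 3 * Fintype.card ι := by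
  classical
  obtain ⟨K, hK⟩ : ∃ K, K = Fintype.card ι := ⟨_, rfl⟩
  obtain ⟨A, hA⟩ : ∃ A : Finset (ι × ι × ι × ι), A = univ.image fun p : ι × ι => (p.1, p.2, p.1, p.2) := ⟨_, rfl⟩
  obtain ⟨B, hB⟩ : ∃ B : Finset (ι × ι × ι × ι), B = univ.image fun p : ι × ι => (p.1, p.2, p.2, p.1) := ⟨_, rfl⟩
  obtain ⟨C, hC⟩ : ∃ C : Finset (ι × ι × ι × ι), C = univ.image fun p : ι × ι => (p.1, ng p.1, p.2, ng p.2) := ⟨_, rfl⟩
  have hsq : (univ : Finset (ι × ι)).card = K ^ 2 := by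
    rw [card_univ, Fintype.card_prod, hK, sq]
  have cA : A.card = K ^ 2 := by
    rw [hA, card_image_of_injective, hsq]
    rintro ⟨a, b⟩ ⟨a', b'⟩ h
    simp only [Prod.mk.injEq] at h
    rw [h.1, h.2.1]
  have cB : B.card = K ^ 2 := by
    rw [hB, card_image_of_injective, hsq]
    rintro ⟨a, b⟩ ⟨a', b'⟩ h
    simp only [Prod.mk.injEq] at h
    rw [h.1, h.2.1]
  have cC : C.card = K ^ 2 := by
    rw [hC, card_image_of_injective, hsq]
    rintro ⟨a, b⟩ ⟨a', b'⟩ h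
    simp only [Prod.mk.injEq] at h
    rw [h.1, h.2.2.1]
  have cK : ∀ f : ι → ι × ι × ι × ι, (univ.image f).card ≤ K := fun f => by
    rw [hK]
    exact card_image_le.trans (le_of_eq card_univ)
  have hAB : (A ∩ B).card ≤ K := by
    refine le_trans (card_le_card ?_) (cK fun a => (a, a, a, a))
    intro x hx
    rw [mem_inter, hA, hB, mem_image, mem_image] at hx
    obtain ⟨⟨⟨a, b⟩, -, rfl⟩, ⟨⟨a', b'⟩, -, h⟩⟩ := hx
    simp only [Prod.mk.injEq] at h
    obtain ⟨h1, h2, h3, h4⟩ := h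
    have h5 : b = a := by rw [← h3, h2]
    rw [mem_image]
    exact ⟨a, mem_univ _, by rw [h5]⟩
  have hAC : (A ∩ C).card ≤ K := by
    refine le_trans (card_le_card ?_) (cK fun a => (a, ng a, a, ng a))
    intro x hx
    rw [mem_inter, hA, hC, mem_image, mem_image] at hx
    obtain ⟨⟨⟨a, b⟩, -, rfl⟩, ⟨⟨a', b'⟩, -, h⟩⟩ := hx
    simp only [Prod.mk.injEq] at h
    obtain ⟨h1, h2, h3, h4⟩ := h
    have h5 : b = ng a := by rw [← h2, h1]
    rw [mem_image]
    exact ⟨a, mem_univ _, by rw [h5]⟩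
  have hBC : (B ∩ C).card ≤ K := by
    refine le_trans (card_le_card ?_) (cK fun a => (a, ng a, ng a, a))
    intro x hx
    rw [mem_inter, hB, hC, mem_image, mem_image] at hx
    obtain ⟨⟨⟨a, b⟩, -, rfl⟩, ⟨⟨a', b'⟩, -, h⟩⟩ := hx
    simp only [Prod.mk.injEq] at h
    obtain ⟨h1, h2, h3, h4⟩ := h
    have h5 : b = ng a := by rw [← h2, h1]
    rw [mem_image]
    exact ⟨a, mem_univ _, by rw [h5]⟩
  have hsub : (A ∪ B) ∪ C ⊆ univ.filter fun p : ι × ι × ι × ι => g p.1 + g p.2.1 - g p.2.2.1 - g p.2.2.2 = 0 := by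
    intro x hx
    rw [mem_union, mem_union, hA, hB, hC, mem_image, mem_image, mem_image] at hx
    rw [mem_filter]
    refine ⟨mem_univ _, ?_⟩
    rcases hx with (⟨⟨a, b⟩, -, rfl⟩ | ⟨⟨a, b⟩, -, rfl⟩) | ⟨⟨a, b⟩, -, rfl⟩
    · show g a + g b - g a - g b = 0
      abel
    · show g a + g b - g b - g a = 0
      abel
    · show g a + g (ng a) - g b - g (ng b) = 0
      rw [hng, hng]
      abel
  have h1 := card_le_card hsub
  have h2 := card_union_add_card_inter (A ∪ B) C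
  have h3 := card_union_add_card_inter A B
  have h4 : ((A ∪ B) ∩ C).card ≤ (A ∩ C).card + (B ∩ C).card := by
    rw [union_inter_distrib_right]
    exact card_union_le _ _
  rw [← hK]
  omega

end TightIndep.FV
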