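import Pool.Agent.Lib.MP_f31b39_co.FV.Defs

/-!
# FV-CntU: the number of representations of a nonzero element as a sum of four elements
-/

namespace TightIndep.FV

open Finset NO

private def ev {m : ℕ} : Option (Fin m × Bool) → (Fin m → ℤ)
  | none => 0
  | some d => ud d

private def ng {m : ℕ} : Option (Fin m × Bool) → Option (Fin m × Bool)
  | none => none
  | some (l, b) => some (l, !b)

private theorem ng_ng {m : ℕ} (x : Option (Fin m × Bool)) : ng (ng x) = x := by
  rcases x with _ | ⟨l, b⟩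
  · rfl
  · simp [ng]

private theorem ev_ng {m : ℕ} (x : Option (Fin m × Bool)) : ev (ng x) = - ev x := by
  rcases x with _ | ⟨l, b⟩
  · simp [ng, ev]
  · funext j
    by_cases h : j = l
    · subst h
      cases b <;> simp [ng, ev, ud]
    · cases b <;> simp [ng, ev, ud, h]

private theorem ev_sum {G : Type} [AddCommGroup G] {m : ℕ} (a : Fin m → G) (x : Option (Fin m × Bool)) :
    ∑ l, ev x l • a l = sg a x := by
  rcases x with _ | ⟨l, b⟩
  · simp [ev, sg]
  · have h : ∑ j, ev (some (l, b)) j • a j = ev (some (l, b)) l • a l := by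
      refine Finset.sum_eq_single l (fun j _ hj => ?_) (fun h => absurd (Finset.mem_univ _) h)
      have h1 : ev (some (l, b)) j = 0 := by
        simp [ev, ud, hj]
      rw [h1, zero_smul]
    rw [h]
    cases b <;> simp [ev, ud, sg]

private theorem nrm_ev {m : ℕ} (x : Option (Fin m × Bool)) : nrm (ev x) ≤ 1 := by
  rcases x with _ | d
  · change nrm (0 : Fin m → ℤ) ≤ 1
    rw [nrm_zero]
    exact Nat.zero_le 1
  · exact (nrm_ud d).le

/-- the signed component -/
private def vl {m : ℕ} (x : Option (Fin m × Bool)) (d : Fin m × Bool) : ℤ := if d.2 then ev x d.1 else - ev x d.1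

private theorem vl_spec {m : ℕ} (x : Option (Fin m × Bool)) (d : Fin m × Bool) :
    (vl x d = 1 ∧ x = some d) ∨ (vl x d = -1 ∧ x = ng (some d)) ∨ (vl x d = 0 ∧ x ≠ some d ∧ x ≠ ng (some d)) := by
  rcases x with _ | ⟨l, b⟩
  · right
    right
    obtain ⟨l', b'⟩ := d
    refine ⟨?_, by simp, by simp [ng]⟩
    simp [vl, ev]
  · obtain ⟨l', b'⟩ := d
    by_cases h : l' = l
    · subst h
      cases b <;> cases b' <;> simp [vl, ev, ud, ng]
    · right
      right
      refine ⟨?_, ?_, ?_⟩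
      · simp [vl, ev, ud, h]
      · intro h1
        simp only [Option.some.injEq, Prod.mk.injEq] at h1
        exact h h1.1.symm
      · intro h1
        simp only [ng, Option.some.injEq, Prod.mk.injEq] at h1
        exact h h1.1.symm

private theorem ev_inj {m : ℕ} {x y : Option (Fin m × Bool)} (h : ev x = ev y) : x = y := by
  have hv : ∀ d, vl x d = vl y d := by
    intro d
    unfold vl
    rw [h]
  rcases x with _ | d
  · rcases y with _ | d
    · rfl
    · exfalso
      have h1 := hv d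
      rcases vl_spec (none : Option (Fin m × Bool)) d with h2 | h2 | h2
      · simp at h2
      · simp [ng] at h2
      · rcases vl_spec (some d) d with h3 | h3 | h3
        · omega
        · obtain ⟨l, b⟩ := d
          simp [ng] at h3
        · exact h3.2.1 rfl
  · have h1 := hv d
    rcases vl_spec (some d) d with h3 | h3 | h3
    · rcases vl_spec y d with h2 | h2 | h2
      · exact h2.2.symm
      · omega
      · omega
    · obtain ⟨l, b⟩ := d
      simp [ng] at h3
    · exact absurd rfl h3.2.1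

/-- the number of the `k`-tuples with sum `V` -/
private noncomputable def NN {m : ℕ} (k : ℕ) (V : Fin m → ℤ) : ℕ :=
  (univ.filter fun p : Fin k → Option (Fin m × Bool) => ∑ i, ev (p i) = V).card

private theorem ev_ne {m : ℕ} {x : Option (Fin m × Bool)} {l : Fin m} (h : ev x l ≠ 0) : ∃ b, x = some (l, b) := by
  rcases x with _ | ⟨l', b⟩
  · exact absurd rfl h
  · by_cases hl : l = l'
    · subst hl
      exact ⟨b, rfl⟩
    · exact absurd (by simp [ev, ud, hl]) h

private theorem NN_ins {m k : ℕ} (V : Fin m → ℤ) (i : Fin (k + 1)) (c : Option (Fin m × Bool)) :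
    (univ.filter fun p : Fin (k + 1) → Option (Fin m × Bool) => p i = c ∧ ∑ i, ev (p i) = V).card ≤
      NN k (V - ev c) := by
  refine Finset.card_le_card_of_injOn (fun p => fun j => p (i.succAbove j)) ?_ ?_
  · intro p hp
    rw [Finset.mem_coe, Finset.mem_filter] at hp ⊢
    obtain ⟨-, h1, h2⟩ := hp
    refine ⟨Finset.mem_univ _, ?_⟩
    rw [Fin.sum_univ_succAbove _ i, h1] at h2
    rw [← h2]
    exact (add_sub_cancel_left _ _).symm
  · intro p hp p' hp' h
    rw [Finset.mem_coe, Finset.mem_filter] at hp hp'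
    funext j
    rcases Fin.eq_self_or_eq_succAbove i j with hj | ⟨j', hj⟩
    · rw [hj, hp.2.1, hp'.2.1]
    · rw [hj]
      exact congrFun h j'

private theorem NN_step {m k B : ℕ} (hB : ∀ V' : Fin m → ℤ, NN k V' ≤ B) (V : Fin m → ℤ) (hV : V ≠ 0) :
    NN (k + 1) V ≤ 2 * (k + 1) * B := by
  obtain ⟨l, hl⟩ : ∃ l, V l ≠ 0 := by
    by_contra hc
    push Not at hc
    exact hV (funext hc)
  have hsub : (univ.filter fun p : Fin (k + 1) → Option (Fin m × Bool) => ∑ i, ev (p i) = V) ⊆
      (univ : Finset (Fin (k + 1) × Bool)).biUnion (fun ib =>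
        univ.filter fun p : Fin (k + 1) → Option (Fin m × Bool) => p ib.1 = some (l, ib.2) ∧ ∑ i, ev (p i) = V) := by
    intro p hp
    rw [Finset.mem_filter] at hp
    have h1 : ∑ i, ev (p i) l ≠ 0 := by
      rw [← Finset.sum_apply, hp.2]
      exact hl
    obtain ⟨i, _, hi⟩ := Finset.exists_ne_zero_of_sum_ne_zero h1
    obtain ⟨b, hb⟩ := ev_ne hi
    rw [Finset.mem_biUnion]
    exact ⟨(i, b), Finset.mem_univ _, Finset.mem_filter.2 ⟨Finset.mem_univ _, hb, hp.2⟩⟩
  have h2 : NN (k + 1) V ≤ Finset.card (univ : Finset (Fin (k + 1) × Bool)) * B := by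
    refine (Finset.card_le_card hsub).trans ?_
    exact Finset.card_biUnion_le_card_mul _ _ _ fun ib _ => (NN_ins V ib.1 _).trans (hB _)
  refine h2.trans (le_of_eq ?_)
  rw [Finset.card_univ, Fintype.card_prod, Fintype.card_fin, Fintype.card_bool]
  ring

private theorem NN_sum {m k : ℕ} (V : Fin m → ℤ) :
    NN (k + 1) V ≤ ∑ c : Option (Fin m × Bool), NN k (V - ev c) := by
  have hsub : (univ.filter fun p : Fin (k + 1) → Option (Fin m × Bool) => ∑ i, ev (p i) = V) ⊆
      (univ : Finset (Option (Fin m × Bool))).biUnion (fun c =>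
        univ.filter fun p : Fin (k + 1) → Option (Fin m × Bool) => p 0 = c ∧ ∑ i, ev (p i) = V) := by
    intro p hp
    rw [Finset.mem_filter] at hp
    rw [Finset.mem_biUnion]
    exact ⟨p 0, Finset.mem_univ _, Finset.mem_filter.2 ⟨Finset.mem_univ _, rfl, hp.2⟩⟩
  refine (Finset.card_le_card hsub).trans (Finset.card_biUnion_le.trans ?_)
  exact Finset.sum_le_sum fun c _ => NN_ins V 0 c

private theorem NN_one {m : ℕ} (V : Fin m → ℤ) : NN 1 V ≤ 1 := by
  unfold NN
  rw [Finset.card_le_one]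
  intro p hp p' hp'
  rw [Finset.mem_filter] at hp hp'
  have h1 : ev (p 0) = ev (p' 0) := by
    have h2 := hp.2.trans hp'.2.symm
    simpa using h2
  funext j
  rw [Subsingleton.elim j 0]
  exact ev_inj h1

private theorem card_O (m : ℕ) : Fintype.card (Option (Fin m × Bool)) = 2 * m + 1 := by
  rw [Fintype.card_option, Fintype.card_prod, Fintype.card_fin, Fintype.card_bool]
  ring

private theorem NN_two {m : ℕ} (V : Fin m → ℤ) : NN 2 V ≤ 2 * m + 1 := by
  refine (NN_sum V).trans ?_
  refine (Finset.sum_le_sum fun c _ => NN_one _).trans (le_of_eq ?_)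
  rw [Finset.sum_const, smul_eq_mul, mul_one, Finset.card_univ, card_O]

private theorem NN_two' {m : ℕ} (V : Fin m → ℤ) (hV : V ≠ 0) : NN 2 V ≤ 4 := by
  have h : NN 2 V ≤ 2 * (1 + 1) * 1 := NN_step (k := 1) NN_one V hV
  omega

private theorem NN_three {m : ℕ} (V : Fin m → ℤ) : NN 3 V ≤ 6 * (2 * m + 1) := by
  by_cases hV : V = 0
  · subst hV
    refine (NN_sum 0).trans ?_
    rw [Fintype.sum_option]
    have h1 := NN_two ((0 : Fin m → ℤ) - ev none)
    have h2 : ∑ d : Fin m × Bool, NN 2 ((0 : Fin m → ℤ) - ev (some d)) ≤ ∑ d : Fin m × Bool, 4 := by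
      refine Finset.sum_le_sum fun d _ => NN_two' _ ?_
      intro h0
      rw [zero_sub, neg_eq_zero] at h0
      have h3 : ev (some d) = ev none := h0
      have h4 := ev_inj h3
      simp at h4
    rw [Finset.sum_const, Finset.card_univ, Fintype.card_prod, Fintype.card_fin, Fintype.card_bool, smul_eq_mul] at h2
    omega
  · have h : NN 3 V ≤ 2 * (2 + 1) * (2 * m + 1) := NN_step (k := 2) NN_two V hV
    omega

private theorem NN_four {m : ℕ} (V : Fin m → ℤ) (hV : V ≠ 0) : NN 4 V ≤ 48 * (2 * m + 1) := by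
  have h : NN 4 V ≤ 2 * (3 + 1) * (6 * (2 * m + 1)) := NN_step (k := 3) NN_three V hV
  omega

theorem cnt_le {G : Type} [AddCommGroup G] [DecidableEq G] {m : ℕ} (hm : 2 ≤ m) (a : Fin m → G)
    (h : ∀ v ∈ rel a, v ≠ 0 → 9 ≤ nrm v) (y : G) (hy : y ≠ 0) :
    (univ.filter fun p : Option (Fin m × Bool) × Option (Fin m × Bool) × Option (Fin m × Bool) ×
        Option (Fin m × Bool) =>
      sg a p.1 + sg a p.2.1 - sg a p.2.2.1 - sg a p.2.2.2 = y).card ≤ 48 * (2 * m + 1) := by
  rcases Finset.eq_empty_or_nonempty (univ.filter fun p : Option (Fin m × Bool) × Option (Fin m × Bool) ×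
      Option (Fin m × Bool) × Option (Fin m × Bool) =>
      sg a p.1 + sg a p.2.1 - sg a p.2.2.1 - sg a p.2.2.2 = y) with h0 | ⟨⟨q1, q2, q3, q4⟩, hq⟩
  · rw [h0, Finset.card_empty]
    exact Nat.zero_le _
  rw [Finset.mem_filter] at hq
  have hq2 : sg a q1 + sg a q2 - sg a q3 - sg a q4 = y := hq.2
  obtain ⟨V, hV⟩ : ∃ V, V = ev q1 + ev q2 - ev q3 - ev q4 := ⟨_, rfl⟩
  have hval : ∀ p1 p2 p3 p4 : Option (Fin m × Bool), ∑ l, (ev p1 + ev p2 - ev p3 - ev p4) l • a l =
      sg a p1 + sg a p2 - sg a p3 - sg a p4 := by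
    intro p1 p2 p3 p4
    simp only [Pi.sub_apply, Pi.add_apply, sub_smul, add_smul]
    rw [Finset.sum_sub_distrib, Finset.sum_sub_distrib, Finset.sum_add_distrib, ev_sum, ev_sum, ev_sum, ev_sum]
  have hnrm : ∀ p1 p2 p3 p4 : Option (Fin m × Bool), nrm (ev p1 + ev p2 - ev p3 - ev p4) ≤ 4 := by
    intro p1 p2 p3 p4
    have e1 : ev p1 + ev p2 = ev p1 - ev (ng p2) := by
      rw [ev_ng, sub_neg_eq_add]
    rw [e1]
    have h1 := nrm_sub_le (ev p1) (ev (ng p2))
    have h2 := nrm_sub_le (ev p1 - ev (ng p2)) (ev p3)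
    have h3 := nrm_sub_le (ev p1 - ev (ng p2) - ev p3) (ev p4)
    have h4 := nrm_ev p1
    have h5 := nrm_ev (ng p2)
    have h6 := nrm_ev p3
    have h7 := nrm_ev p4
    omega
  have hV0 : V ≠ 0 := by
    intro hz
    apply hy
    rw [← hq2, ← hval, ← hV, hz]
    simp
  refine le_trans ?_ (NN_four V hV0)
  refine Finset.card_le_card_of_injOn (fun p => ![p.1, p.2.1, ng p.2.2.1, ng p.2.2.2]) ?_ ?_
  · rintro ⟨p1, p2, p3, p4⟩ hp
    rw [Finset.mem_coe, Finset.mem_filter] at hp ⊢
    have hp2 : sg a p1 + sg a p2 - sg a p3 - sg a p4 = y := hp.2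
    refine ⟨Finset.mem_univ _, ?_⟩
    have h1 : ev p1 + ev p2 - ev p3 - ev p4 = V := by
      by_contra hne
      have h2 : (ev p1 + ev p2 - ev p3 - ev p4) - V ∈ rel a := by
        change ∑ l, ((ev p1 + ev p2 - ev p3 - ev p4) - V) l • a l = 0
        have h3 : ∀ l, ((ev p1 + ev p2 - ev p3 - ev p4) - V) l • a l =
            (ev p1 + ev p2 - ev p3 - ev p4) l • a l - V l • a l := by
          intro l
          rw [Pi.sub_apply, sub_smul]
        rw [Finset.sum_congr rfl fun l _ => h3 l, Finset.sum_sub_distrib, hval, hV, hval, hp2, hq2, sub_self]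
      have h3 := h _ h2 (sub_ne_zero.2 hne)
      have h4 := nrm_sub_le (ev p1 + ev p2 - ev p3 - ev p4) V
      have h5 := hnrm p1 p2 p3 p4
      have h6 := hnrm q1 q2 q3 q4
      rw [← hV] at h6
      omega
    rw [← h1, Fin.sum_univ_four]
    change ev p1 + ev p2 + ev (ng p3) + ev (ng p4) = _
    rw [ev_ng, ev_ng]
    abel
  · rintro ⟨p1, p2, p3, p4⟩ _ ⟨r1, r2, r3, r4⟩ _ hpr
    have h0 := congrFun hpr 0
    have h1 := congrFun hpr 1
    have h2 := congrFun hpr 2
    have h3 := congrFun hpr 3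
    change p1 = r1 at h0
    change p2 = r2 at h1
    change ng p3 = ng r3 at h2
    change ng p4 = ng r4 at h3
    have h4 : p3 = r3 := by rw [← ng_ng p3, h2, ng_ng]
    have h5 : p4 = r4 := by rw [← ng_ng p4, h3, ng_ng]
    rw [h0, h1, h4, h5]

theorem cnt_le' {G : Type} [AddCommGroup G] [DecidableEq G] {m : ℕ} (hm : 2 ≤ m) (a : Fin m → G)
    (h : ∀ v ∈ rel a, v ≠ 0 → 9 ≤ nrm v) (y : G) (hy : y ≠ 0) :
    (univ.filter fun p : (Fin m × Bool) × (Fin m × Bool) × (Fin m × Bool) × (Fin m × Bool) =>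
      sg a (some p.1) + sg a (some p.2.1) - sg a (some p.2.2.1) - sg a (some p.2.2.2) =
        y).card ≤ 48 * (2 * m + 1) := by
  refine le_trans (Finset.card_le_card_of_injOn
    (fun p : (Fin m × Bool) × (Fin m × Bool) × (Fin m × Bool) × (Fin m × Bool) =>
      ((some p.1, some p.2.1, some p.2.2.1, some p.2.2.2) : Option (Fin m × Bool) × Option (Fin m × Bool) ×
        Option (Fin m × Bool) × Option (Fin m × Bool))) ?_ ?_) (cnt_le hm a h y hy)
  · intro p hp
    rw [Finset.mem_coe, Finset.mem_filter] at hp ⊢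
    exact ⟨Finset.mem_univ _, hp.2⟩
  · intro p _ q _ hpq
    simp only [Prod.mk.injEq, Option.some.injEq] at hpq
    exact Prod.ext hpq.1 (Prod.ext hpq.2.1 (Prod.ext hpq.2.2.1 hpq.2.2.2))

end TightIndep.FV
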