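import Pool.Agent.Lib.MP_f31b39_co.FV.Est

/-!
# FV-Core: the product of the conjugates is too small
-/

namespace TightIndep.FV

open Finset

private theorem core_ne {n : ℕ} [NeZero n] (hn : 11 ≤ n) (u : (ZMod n)ˣ) (k : ℕ) (hk1 : 1 ≤ k) (hk5 : k ≤ 5) :
    2 * ((k : ZMod n) * (u : ZMod n)) ≠ 0 := by
  intro h
  have h1 : ((2 * k : ℕ) : ZMod n) * (u : ZMod n) = 0 := by
    push_cast
    rw [mul_assoc]
    exact h
  have h2 : ((2 * k : ℕ) : ZMod n) = 0 := by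
    have h3 := congrArg (fun t => t * ((u⁻¹ : (ZMod n)ˣ) : ZMod n)) h1
    simpa [mul_assoc] using h3
  rw [ZMod.natCast_eq_zero_iff] at h2
  have h4 := Nat.le_of_dvd (by omega) h2
  omega

private theorem core_fin (R : ℝ) (hR : (400 : ℝ) ^ 30 < R) (P s l : ℕ) (hP : 1 ≤ P) (hsl : s + l = P)
    (hl : 60 * l ≤ 29 * P) (pr : ℝ) (hpr0 : 0 ≤ pr) (hpr : pr ≤ (40 / R) ^ s * (10 * R) ^ l) : pr < 1 := by
  have hR1 : (400 : ℝ) ^ 30 ≤ R := hR.le
  have hR0 : 0 < R := lt_trans (by norm_num) hR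
  have hR40 : 40 / R ≤ 1 := by
    rw [div_le_one hR0]
    refine le_trans ?_ hR1
    norm_num
  have hq0 : 0 ≤ 40 / R := by positivity
  have hnn : 0 ≤ (40 / R) ^ s * (10 * R) ^ l := by positivity
  have e1 : ((40 / R) ^ s * (10 * R) ^ l) ^ 30 = (40 / R) ^ (30 * s) * (10 * R) ^ (30 * l) := by
    rw [mul_pow, ← pow_mul, ← pow_mul, mul_comm s 30, mul_comm l 30]
  have e2 : (40 / R) ^ (30 * s) ≤ (40 / R) ^ (30 * l + P) :=
    pow_le_pow_of_le_one hq0 hR40 (by omega)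
  have e3 : (40 / R) ^ (30 * l + P) * (10 * R) ^ (30 * l) = 400 ^ (30 * l) * (40 / R) ^ P := by
    have e4 : 40 / R * (10 * R) = 400 := by
      field_simp
      norm_num
    rw [pow_add, ← e4, mul_pow (40 / R) (10 * R)]
    generalize 40 / R = a
    generalize 10 * R = b
    ring
  have e5 : (400 : ℝ) ^ (30 * l) ≤ 400 ^ (15 * P) := pow_le_pow_right₀ (by norm_num) (by omega)
  have e6 : (400 : ℝ) ^ (15 * P) * (40 / R) ^ P = (400 ^ 15 * (40 / R)) ^ P := by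
    rw [mul_pow, ← pow_mul]
  have e7 : (400 : ℝ) ^ 15 * (40 / R) < 1 := by
    rw [← mul_div_assoc, div_lt_one hR0]
    refine lt_of_lt_of_le ?_ hR1
    norm_num
  have e8 : ((400 : ℝ) ^ 15 * (40 / R)) ^ P < 1 := pow_lt_one₀ (by positivity) e7 (by omega)
  have e9 : ((40 / R) ^ s * (10 * R) ^ l) ^ 30 < 1 := by
    calc ((40 / R) ^ s * (10 * R) ^ l) ^ 30 = (40 / R) ^ (30 * s) * (10 * R) ^ (30 * l) := e1
      _ ≤ (40 / R) ^ (30 * l + P) * (10 * R) ^ (30 * l) := mul_le_mul_of_nonneg_right e2 (by positivity)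
      _ = 400 ^ (30 * l) * (40 / R) ^ P := e3
      _ ≤ 400 ^ (15 * P) * (40 / R) ^ P := mul_le_mul_of_nonneg_right e5 (by positivity)
      _ = (400 ^ 15 * (40 / R)) ^ P := e6
      _ < 1 := e8
  have e10 : (40 / R) ^ s * (10 * R) ^ l < 1 := by
    by_contra hcon
    push Not at hcon
    exact absurd (one_le_pow₀ hcon (n := 30)) (not_le.2 e9)
  exact lt_of_le_of_lt hpr e10

private theorem prod_le_pow_card_real {α : Type*} (s : Finset α) (f : α → ℝ) (B : ℝ) (h0 : ∀ a ∈ s, 0 ≤ f a)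
    (h : ∀ a ∈ s, f a ≤ B) : ∏ a ∈ s, f a ≤ B ^ #s := by
  rw [← prod_const]
  exact prod_le_prod h0 h

theorem core5 {n : ℕ} [NeZero n] (hn : 11 ≤ n) (x : ZMod n → ℝ) (K N : ℝ)
    (hK : (400 : ℝ) ^ 60 < K) (hN1 : K - 2 ≤ 2 * N) (hN2 : 2 * N ≤ K)
    (hM : ∀ j : ZMod n, 2 * j ≠ 0 → |x j| ≤ 10 * √K)
    (heq : ∀ j : ZMod n, 2 * j ≠ 0 →
      F5 N (x j) (x (2 * j)) (x (3 * j)) (x (4 * j)) (x (5 * j)) = 0)
    (hq : ∑ u : (ZMod n)ˣ, (10 * K * x u ^ 2 - x u ^ 4) ≤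
      (Nat.totient n : ℝ) * (15 * K ^ 2 * (15 / 32)))
    (hN : 1 ≤ |∏ u : (ZMod n)ˣ, x u|) : False := by
  classical
  have hK0 : 0 < K := lt_trans (by norm_num) hK
  have hR : (400 : ℝ) ^ 30 < √K := by
    rw [Real.lt_sqrt (by positivity), ← pow_mul]
    exact hK
  have hR0 : 0 < √K := lt_trans (by norm_num) hR
  have hKm : (1000000 : ℝ) ≤ K := le_trans (by norm_num) hK.le
  have hK2 : 0 < K ^ 2 := by positivity
  have hest : ∀ u : (ZMod n)ˣ, (|x u| ≤ 40 / √K ∧ 0 ≤ 10 * K * x u ^ 2 - x u ^ 4) ∨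
      15 * K ^ 2 - 1200000 * K ^ 2 / √K ≤ 10 * K * x u ^ 2 - x u ^ 4 := by
    intro u
    have n1 : 2 * (u : ZMod n) ≠ 0 := by
      have h := core_ne hn u 1 (by norm_num) (by norm_num)
      simpa using h
    have n2 : 2 * (2 * (u : ZMod n)) ≠ 0 := by
      have h := core_ne hn u 2 (by norm_num) (by norm_num)
      exact_mod_cast h
    have n3 : 2 * (3 * (u : ZMod n)) ≠ 0 := by
      have h := core_ne hn u 3 (by norm_num) (by norm_num)
      exact_mod_cast h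
    have n4 : 2 * (4 * (u : ZMod n)) ≠ 0 := by
      have h := core_ne hn u 4 (by norm_num) (by norm_num)
      exact_mod_cast h
    have n5 : 2 * (5 * (u : ZMod n)) ≠ 0 := by
      have h := core_ne hn u 5 (by norm_num) (by norm_num)
      exact_mod_cast h
    exact est K N _ _ _ _ _ hKm hN1 hN2 (hM _ n1) (hM _ n2) (hM _ n3) (hM _ n4) (hM _ n5) (heq _ n1)
  set S : Finset (ZMod n)ˣ := univ.filter fun u => |x u| ≤ 40 / √K ∧ 0 ≤ 10 * K * x u ^ 2 - x u ^ 4 with hS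
  set L : Finset (ZMod n)ˣ := univ.filter fun u => ¬ (|x u| ≤ 40 / √K ∧ 0 ≤ 10 * K * x u ^ 2 - x u ^ 4) with hL
  have hcard : #S + #L = Nat.totient n := by
    rw [hS, hL, card_filter_add_card_filter_not, card_univ, ZMod.card_units_eq_totient]
  have hP : 1 ≤ Nat.totient n := Nat.totient_pos.2 (by omega)
  have hsum : (#L : ℝ) * (15 * K ^ 2 - 1200000 * K ^ 2 / √K) ≤
      ∑ u : (ZMod n)ˣ, (10 * K * x u ^ 2 - x u ^ 4) := by
    rw [← sum_filter_add_sum_filter_not univ (fun u : (ZMod n)ˣ => |x u| ≤ 40 / √K ∧ 0 ≤ 10 * K * x u ^ 2 - x u ^ 4)]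
    have h1 : 0 ≤ ∑ u ∈ S, (10 * K * x u ^ 2 - x u ^ 4) := sum_nonneg fun u hu => (mem_filter.1 hu).2.2
    have h2 : (#L : ℝ) * (15 * K ^ 2 - 1200000 * K ^ 2 / √K) ≤ ∑ u ∈ L, (10 * K * x u ^ 2 - x u ^ 4) := by
      rw [← nsmul_eq_mul]
      refine card_nsmul_le_sum _ _ _ fun u hu => ?_
      exact (hest u).resolve_left (mem_filter.1 hu).2
    linarith
  have hsm : 1200000 * K ^ 2 / √K ≤ K ^ 2 / 100 := by
    rw [div_le_iff₀ hR0]
    have h1 : (120000000 : ℝ) ≤ √K := le_trans (by norm_num) hR.le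
    nlinarith
  have hL60 : 60 * #L ≤ 29 * Nat.totient n := by
    have h1 : (#L : ℝ) * (15 * K ^ 2 - K ^ 2 / 100) ≤ (Nat.totient n : ℝ) * (15 * K ^ 2 * (15 / 32)) := by
      refine le_trans (mul_le_mul_of_nonneg_left ?_ (Nat.cast_nonneg _)) (hsum.trans hq)
      linarith
    have h2 : (#L : ℝ) * (15 - 1 / 100) ≤ (Nat.totient n : ℝ) * (15 * (15 / 32)) := by
      have h3 : ((#L : ℝ) * (15 - 1 / 100)) * K ^ 2 ≤ ((Nat.totient n : ℝ) * (15 * (15 / 32))) * K ^ 2 := by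
        nlinarith
      exact le_of_mul_le_mul_right h3 hK2
    have h4 : (60 * #L : ℝ) ≤ 29 * (Nat.totient n : ℝ) := by
      have h5 : (0 : ℝ) ≤ (Nat.totient n : ℝ) := Nat.cast_nonneg _
      nlinarith
    exact_mod_cast h4
  have hprod : |∏ u : (ZMod n)ˣ, x u| ≤ (40 / √K) ^ #S * (10 * √K) ^ #L := by
    rw [abs_prod, ← prod_filter_mul_prod_filter_not univ
      (fun u : (ZMod n)ˣ => |x u| ≤ 40 / √K ∧ 0 ≤ 10 * K * x u ^ 2 - x u ^ 4)]
    refine mul_le_mul ?_ ?_ (prod_nonneg fun _ _ => abs_nonneg _) (by positivity)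
    · exact prod_le_pow_card_real S (fun u => |x u|) _ (fun u _ => abs_nonneg _) fun u hu => (mem_filter.1 hu).2.1
    · refine prod_le_pow_card_real L (fun u => |x u|) _ (fun u _ => abs_nonneg _) fun u _ => ?_
      have h := core_ne hn u 1 (by norm_num) (by norm_num)
      exact hM _ (by simpa using h)
  have hfin := core_fin (√K) hR (Nat.totient n) #S #L hP hcard hL60 _ (abs_nonneg _) hprod
  linarith

end TightIndep.FV
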