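import Pool.Agent.Lib.MP_f31b39_co.NO.Defs

/-!
# Board FV (tight 10- and 11-independent sets in cyclic groups): definitions
-/

namespace TightIndep.FV

open Finset

/-- `120` times the fifth coefficient, in the power sums -/
def F5 {R : Type} [CommRing R] (N x y z v w : R) : R :=
  x ^ 5 + 10 * x ^ 3 * (y - 2 * N) + 15 * x * (y - 2 * N) ^ 2 + 20 * x ^ 2 * z +
    20 * (y - 2 * N) * z + 30 * x * (v - 2 * N) + 24 * w

end TightIndep.FV
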