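import Pool.Agent.Lib.MP_f31b39_co.FV.Ten
import Pool.Agent.Lib.MP_f31b39_co.T7.Eq

/-!
# FV-Elev: the equation of a character for `t = 11`
-/

namespace TightIndep.FV

open Finset

private theorem dball_sum {G : Type} [AddCommGroup G] [Fintype G] {m : ℕ} (a : Fin (m + 1) → G)
    (h : ∀ v ∈ rel a, v ≠ 0 → 12 ≤ nrm v) (hG : Fintype.card G = bound (m + 1) 11)
    (d : Fin (m + 1) × Bool) :
    (∀ g : G, ∃ u ∈ dball (5 + 1) d, ∑ i, u i • a i = g) ∧
      ∀ f : G → ℂ, ∑ u ∈ dball (5 + 1) d, f (∑ i, u i • a i) = ∑ g, f g := by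
  apply sum_image_fam 11 a h
  · intro u hu u' hu'
    rw [mem_dball] at hu hu'
    have h3 := nrm_sub_le u u'
    have h4 := nrm_sub_le (u + ud d) (u' + ud d)
    rw [add_sub_add_right_eq_sub] at h4
    have h5 : nrm (u' + ud d - ud d) ≤ nrm (u' + ud d) + nrm (ud d) := nrm_sub_le _ _
    have h6 : nrm (u + ud d - ud d) ≤ nrm (u + ud d) + nrm (ud d) := nrm_sub_le _ _
    rw [add_sub_cancel_right, nrm_ud] at h5 h6
    omega
  · rw [hG, card_dball, ← bound_odd m (5 + 1) (by omega)]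

private theorem mon_char {G : Type} [AddCommGroup G] {m : ℕ} (a : Fin m → G) (χ : AddChar G ℂ)
    (v : Fin m → ℤ) : mon (fun i => χ (a i)) v = χ (∑ i, v i • a i) := by
  unfold mon
  rw [addChar_map_sum]
  refine prod_congr rfl fun i _ => ?_
  rw [AddChar.map_zsmul_eq_zpow]

theorem eleven_eq {G : Type} [AddCommGroup G] [Fintype G] {m : ℕ} (a : Fin (m + 1) → G)
    (h : ∀ v ∈ rel a, v ≠ 0 → 12 ≤ nrm v) (hG : Fintype.card G = bound (m + 1) 11)
    (χ : AddChar G ℂ) (hχ : ∃ g, χ g ^ 2 ≠ 1) :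
    F5 (m : ℂ) (∑ i, (χ (a i) + (χ (a i))⁻¹)) (∑ i, (χ (a i) ^ 2 + (χ (a i))⁻¹ ^ 2))
      (∑ i, (χ (a i) ^ 3 + (χ (a i))⁻¹ ^ 3)) (∑ i, (χ (a i) ^ 4 + (χ (a i))⁻¹ ^ 4))
      (∑ i, (χ (a i) ^ 5 + (χ (a i))⁻¹ ^ 5)) = 0 := by
  have hx : ∀ i, χ (a i) ≠ 0 := by
    intro i h0
    have h1 : χ (a i + -a i) = 1 := by rw [add_neg_cancel, AddChar.map_zero_eq_one]
    rw [AddChar.map_add_eq_mul, h0, zero_mul] at h1
    exact zero_ne_one h1
  have hχ1 : χ ≠ 1 := by
    rintro rfl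
    obtain ⟨g, hg⟩ := hχ
    apply hg
    rw [AddChar.one_apply, one_pow]
  have hsum : ∀ d : Fin (m + 1) × Bool, ∑ v ∈ dball (5 + 1) d, mon (fun i => χ (a i)) v = 0 := by
    intro d
    rw [← AddChar.sum_eq_zero_of_ne_one hχ1, ← (dball_sum a h hG d).2 (fun g => χ g)]
    exact sum_congr rfl fun v _ => mon_char a χ v
  have hi : ∃ i, χ (a i) ^ 2 ≠ 1 := by
    by_contra hno
    push Not at hno
    obtain ⟨g, hg⟩ := hχ
    apply hg
    obtain ⟨u, -, hu⟩ := (dball_sum a h hG (0, true)).1 g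
    rw [← hu, addChar_map_sum, ← prod_pow]
    refine prod_eq_one fun i _ => ?_
    rw [AddChar.map_zsmul_eq_zpow, ← zpow_natCast, ← zpow_mul, mul_comm, zpow_mul, zpow_natCast,
      hno i, one_zpow]
  obtain ⟨i, hi⟩ := hi
  have hc : PowerSeries.coeff 5 (EE (fun i => χ (a i)) * geo2) = 0 := by
    have h3 := coeff_geo2 (fun i => χ (a i)) i 5 (hx i)
    rw [← dball_diff (fun i => χ (a i)) i 5 (hx i), hsum, hsum, sub_zero] at h3
    rcases mul_eq_zero.1 h3 with h4 | h4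
    · exfalso
      apply hi
      have h5 : χ (a i) = (χ (a i))⁻¹ := sub_eq_zero.1 h4
      rw [pow_two]
      nth_rw 2 [h5]
      exact mul_inv_cancel₀ (hx i)
    · exact h4
  rw [newton_odd _ hx, cc_five] at hc
  have e2 : Even 2 := by decide
  have e1 : ¬ Even 1 := by decide
  have e3 : ¬ Even 3 := by decide
  have e4 : Even 4 := by decide
  have e5 : ¬ Even 5 := by decide
  simp only [pw, e1, e2, e3, e4, e5, if_true, if_false, sub_zero, pow_one] at hc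
  unfold F5
  linear_combination 120 * hc

end TightIndep.FV
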