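import Pool.Agent.Lib.MP_f31b39_co.FV.Defs

/-!
# FV-Est: the dichotomy for one character
-/

namespace TightIndep.FV

private theorem Est_core (R N x y z v w : ℝ) (hR : 1000 ≤ R) (hN1 : R ^ 2 - 2 ≤ 2 * N) (hN2 : 2 * N ≤ R ^ 2)
    (hy : |y| ≤ 10 * R) (hz : |z| ≤ 10 * R) (hv : |v| ≤ 10 * R) (hw : |w| ≤ 10 * R) (heq : F5 N x y z v w = 0) :
    |x ^ 5 - 10 * R ^ 2 * x ^ 3 + 15 * R ^ 4 * x| ≤ 110 * R * |x| ^ 3 + 495 * R ^ 3 * |x| + 200 * R * |x| ^ 2 +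
      400 * R ^ 3 + 60 * R ^ 2 * |x| + 240 * R := by
  have hR2 : 1000 * R ≤ R ^ 2 := by nlinarith
  have ha : |y - 2 * N + R ^ 2| ≤ 11 * R := by
    rw [abs_le] at hy ⊢
    constructor <;> linarith
  have hb : |y - 2 * N - R ^ 2| ≤ 3 * R ^ 2 := by
    rw [abs_le] at hy ⊢
    constructor <;> linarith
  have hc : |y - 2 * N| ≤ 2 * R ^ 2 := by
    rw [abs_le] at hy ⊢
    constructor <;> linarith
  have hd : |v - 2 * N| ≤ 2 * R ^ 2 := by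
    rw [abs_le] at hv ⊢
    constructor <;> linarith
  have e : x ^ 5 - 10 * R ^ 2 * x ^ 3 + 15 * R ^ 4 * x = -(10 * x ^ 3 * (y - 2 * N + R ^ 2)) +
      (-(15 * x * ((y - 2 * N + R ^ 2) * (y - 2 * N - R ^ 2)))) + (-(20 * x ^ 2 * z)) + (-(20 * ((y - 2 * N) * z))) +
      (-(30 * x * (v - 2 * N))) + (-(24 * w)) := by
    unfold F5 at heq
    linear_combination heq
  have hx0 : 0 ≤ |x| := abs_nonneg x
  have t1 : |-(10 * x ^ 3 * (y - 2 * N + R ^ 2))| ≤ 110 * R * |x| ^ 3 := by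
    rw [abs_neg, abs_mul, abs_mul, abs_pow, abs_of_pos (by norm_num : (0 : ℝ) < 10)]
    have := mul_le_mul_of_nonneg_left ha (by positivity : 0 ≤ 10 * |x| ^ 3)
    linarith
  have t2 : |-(15 * x * ((y - 2 * N + R ^ 2) * (y - 2 * N - R ^ 2)))| ≤ 495 * R ^ 3 * |x| := by
    rw [abs_neg, abs_mul, abs_mul, abs_mul, abs_of_pos (by norm_num : (0 : ℝ) < 15)]
    have h1 := mul_le_mul ha hb (abs_nonneg _) (by positivity)
    have := mul_le_mul_of_nonneg_left h1 (by positivity : 0 ≤ 15 * |x|)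
    linarith
  have t3 : |-(20 * x ^ 2 * z)| ≤ 200 * R * |x| ^ 2 := by
    rw [abs_neg, abs_mul, abs_mul, abs_pow, abs_of_pos (by norm_num : (0 : ℝ) < 20)]
    have := mul_le_mul_of_nonneg_left hz (by positivity : 0 ≤ 20 * |x| ^ 2)
    linarith
  have t4 : |-(20 * ((y - 2 * N) * z))| ≤ 400 * R ^ 3 := by
    rw [abs_neg, abs_mul, abs_mul, abs_of_pos (by norm_num : (0 : ℝ) < 20)]
    have h1 := mul_le_mul hc hz (abs_nonneg _) (by positivity)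
    linarith
  have t5 : |-(30 * x * (v - 2 * N))| ≤ 60 * R ^ 2 * |x| := by
    rw [abs_neg, abs_mul, abs_mul, abs_of_pos (by norm_num : (0 : ℝ) < 30)]
    have := mul_le_mul_of_nonneg_left hd (by positivity : 0 ≤ 30 * |x|)
    linarith
  have t6 : |-(24 * w)| ≤ 240 * R := by
    rw [abs_neg, abs_mul, abs_of_pos (by norm_num : (0 : ℝ) < 24)]
    linarith
  rw [e]
  refine (abs_add_le _ _).trans (add_le_add ?_ t6)
  refine (abs_add_le _ _).trans (add_le_add ?_ t5)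
  refine (abs_add_le _ _).trans (add_le_add ?_ t4)
  refine (abs_add_le _ _).trans (add_le_add ?_ t3)
  exact (abs_add_le _ _).trans (add_le_add t1 t2)

private theorem Est_pow (R : ℝ) (hR : 1000 ≤ R) : 1000 * R ≤ R ^ 2 ∧ 1000 * R ^ 2 ≤ R ^ 3 ∧ 1000 * R ^ 3 ≤ R ^ 4 := by
  have hR0 : 0 < R := by linarith
  refine ⟨?_, ?_, ?_⟩
  · have := mul_le_mul_of_nonneg_right hR hR0.le
    calc 1000 * R ≤ R * R := this
      _ = R ^ 2 := by ring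
  · have := mul_le_mul_of_nonneg_right hR (by positivity : 0 ≤ R ^ 2)
    calc 1000 * R ^ 2 ≤ R * R ^ 2 := this
      _ = R ^ 3 := by ring
  · have := mul_le_mul_of_nonneg_right hR (by positivity : 0 ≤ R ^ 3)
    calc 1000 * R ^ 3 ≤ R * R ^ 3 := this
      _ = R ^ 4 := by ring

private theorem Est_small (R s : ℝ) (hR : 1000 ≤ R) (hs0 : 0 ≤ s) (hc : s ≤ R / 10)
    (hE : s * |s ^ 4 - 10 * R ^ 2 * s ^ 2 + 15 * R ^ 4| ≤ 110 * R * s ^ 3 + 495 * R ^ 3 * s + 200 * R * s ^ 2 +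
      400 * R ^ 3 + 60 * R ^ 2 * s + 240 * R) : s ≤ 40 / R ∧ 0 ≤ 10 * R ^ 2 * s ^ 2 - s ^ 4 := by
  have hR0 : 0 < R := by linarith
  obtain ⟨hR2, hR3, hR4⟩ := Est_pow R hR
  have hs2 : s ^ 2 ≤ R ^ 2 / 100 := by
    have := mul_le_mul hc hc hs0 (by positivity)
    calc s ^ 2 = s * s := sq s
      _ ≤ R / 10 * (R / 10) := this
      _ = R ^ 2 / 100 := by ring
  have hs3 : s ^ 3 ≤ R ^ 2 / 100 * s := by
    have := mul_le_mul_of_nonneg_right hs2 hs0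
    calc s ^ 3 = s ^ 2 * s := by ring
      _ ≤ _ := this
  have hR40 : 0 < R ^ 4 := by positivity
  have hpos : 14 * R ^ 4 ≤ s ^ 4 - 10 * R ^ 2 * s ^ 2 + 15 * R ^ 4 := by
    have h1 := mul_le_mul_of_nonneg_left hs2 (by positivity : 0 ≤ 10 * R ^ 2)
    have h2 : 0 ≤ s ^ 4 := by positivity
    have h3 : 10 * R ^ 2 * (R ^ 2 / 100) = R ^ 4 / 10 := by ring
    linarith
  have habs : |s ^ 4 - 10 * R ^ 2 * s ^ 2 + 15 * R ^ 4| = s ^ 4 - 10 * R ^ 2 * s ^ 2 + 15 * R ^ 4 := by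
    apply abs_of_nonneg
    linarith
  rw [habs] at hE
  have h1 := mul_le_mul_of_nonneg_left hpos hs0
  have b1 := mul_le_mul_of_nonneg_left hs3 (by positivity : 0 ≤ 110 * R)
  have b2 := mul_le_mul_of_nonneg_right hc (by positivity : 0 ≤ 200 * R * s)
  have b3 := mul_le_mul_of_nonneg_right hR3 hs0
  have b4 := mul_le_mul_of_nonneg_right hR4 hs0
  have e1 : 110 * R * (R ^ 2 / 100 * s) = 11 / 10 * (R ^ 3 * s) := by ring
  have e2 : s * (200 * R * s) = 200 * R * s ^ 2 := by ring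
  have e3 : R / 10 * (200 * R * s) = 20 * (R ^ 2 * s) := by ring
  have e4 : s * (14 * R ^ 4) = 14 * (R ^ 4 * s) := by ring
  have e5 : 495 * R ^ 3 * s = 495 * (R ^ 3 * s) := by ring
  have e6 : 60 * R ^ 2 * s = 60 * (R ^ 2 * s) := by ring
  have e7 : 1000 * R ^ 2 * s = 1000 * (R ^ 2 * s) := by ring
  have e8 : 1000 * R ^ 3 * s = 1000 * (R ^ 3 * s) := by ring
  rw [e1] at b1
  rw [e2, e3] at b2
  rw [e7] at b3
  rw [e8] at b4
  rw [e4] at h1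
  rw [e5, e6] at hE
  have hmain : 13 * (R ^ 4 * s) ≤ 500 * R ^ 3 := by
    have p1 : 0 ≤ R ^ 2 * s := by positivity
    have p2 : 0 ≤ R ^ 3 * s := by positivity
    have p3 : 0 ≤ R ^ 3 := by positivity
    have p4 : 0 ≤ R ^ 2 := by positivity
    linarith
  constructor
  · rw [le_div_iff₀ hR0]
    have h3 : R ^ 3 * (13 * (s * R)) ≤ R ^ 3 * 500 := by
      calc R ^ 3 * (13 * (s * R)) = 13 * (R ^ 4 * s) := by ring
        _ ≤ 500 * R ^ 3 := hmain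
        _ = R ^ 3 * 500 := by ring
    have h4 := le_of_mul_le_mul_left h3 (by positivity)
    linarith
  · have h5 : 0 ≤ 10 * R ^ 2 - s ^ 2 := by
      have : 0 ≤ R ^ 2 := by positivity
      linarith
    have h6 := mul_nonneg (sq_nonneg s) h5
    have h7 : s ^ 2 * (10 * R ^ 2 - s ^ 2) = 10 * R ^ 2 * s ^ 2 - s ^ 4 := by ring
    rw [← h7]
    exact h6

private theorem Est_large (R s : ℝ) (hR : 1000 ≤ R) (hx : s ≤ 10 * R) (hc : R / 10 < s)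
    (hE : s * |s ^ 4 - 10 * R ^ 2 * s ^ 2 + 15 * R ^ 4| ≤ 110 * R * s ^ 3 + 495 * R ^ 3 * s + 200 * R * s ^ 2 +
      400 * R ^ 3 + 60 * R ^ 2 * s + 240 * R) :
    15 * (R ^ 2) ^ 2 - 1200000 * (R ^ 2) ^ 2 / R ≤ 10 * R ^ 2 * s ^ 2 - s ^ 4 := by
  have hR0 : 0 < R := by linarith
  obtain ⟨hR2, hR3, hR4⟩ := Est_pow R hR
  have hs1 : 0 < s := lt_trans (by positivity) hc
  have hs0 := hs1.le
  have hs2 : s ^ 2 ≤ 100 * R ^ 2 := by
    calc s ^ 2 ≤ (10 * R) ^ 2 := pow_le_pow_left₀ hs0 hx 2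
      _ = 100 * R ^ 2 := by ring
  have hs3 : s ^ 3 ≤ 1000 * R ^ 3 := by
    calc s ^ 3 ≤ (10 * R) ^ 3 := pow_le_pow_left₀ hs0 hx 3
      _ = 1000 * R ^ 3 := by ring
  have b1 := mul_le_mul_of_nonneg_left hs3 (by positivity : 0 ≤ 110 * R)
  have b2 := mul_le_mul_of_nonneg_left hs2 (by positivity : 0 ≤ 200 * R)
  have b3 := mul_le_mul_of_nonneg_left hx (by positivity : 0 ≤ 495 * R ^ 3)
  have b4 := mul_le_mul_of_nonneg_left hx (by positivity : 0 ≤ 60 * R ^ 2)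
  have e1 : 110 * R * (1000 * R ^ 3) = 110000 * R ^ 4 := by ring
  have e2 : 200 * R * (100 * R ^ 2) = 20000 * R ^ 3 := by ring
  have e3 : 495 * R ^ 3 * (10 * R) = 4950 * R ^ 4 := by ring
  have e4 : 60 * R ^ 2 * (10 * R) = 600 * R ^ 3 := by ring
  rw [e1] at b1
  rw [e2] at b2
  rw [e3] at b3
  rw [e4] at b4
  have p0 : 0 ≤ R ^ 2 := by positivity
  have hE2 : s * |s ^ 4 - 10 * R ^ 2 * s ^ 2 + 15 * R ^ 4| ≤ 120000 * R ^ 4 := by
    linarith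
  have hE3 : s * (s ^ 4 - 10 * R ^ 2 * s ^ 2 + 15 * R ^ 4) ≤ 120000 * R ^ 4 :=
    (mul_le_mul_of_nonneg_left (le_abs_self _) hs0).trans hE2
  have hE4 : s ^ 4 - 10 * R ^ 2 * s ^ 2 + 15 * R ^ 4 ≤ 1200000 * R ^ 4 / R := by
    have h1 : s ^ 4 - 10 * R ^ 2 * s ^ 2 + 15 * R ^ 4 ≤ 120000 * R ^ 4 / s := by
      rw [le_div_iff₀ hs1, mul_comm]
      exact hE3
    refine h1.trans ?_
    rw [div_le_div_iff₀ hs1 hR0]
    have h2 := mul_le_mul_of_nonneg_left hc.le (by positivity : 0 ≤ 1200000 * R ^ 4)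
    linarith
  have e5 : (R ^ 2) ^ 2 = R ^ 4 := by ring
  rw [e5]
  linarith

theorem est (K N x y z v w : ℝ) (hK : 1000000 ≤ K) (hN1 : K - 2 ≤ 2 * N) (hN2 : 2 * N ≤ K)
    (hx : |x| ≤ 10 * √K) (hy : |y| ≤ 10 * √K) (hz : |z| ≤ 10 * √K) (hv : |v| ≤ 10 * √K)
    (hw : |w| ≤ 10 * √K) (heq : F5 N x y z v w = 0) :
    (|x| ≤ 40 / √K ∧ 0 ≤ 10 * K * x ^ 2 - x ^ 4) ∨
      15 * K ^ 2 - 1200000 * K ^ 2 / √K ≤ 10 * K * x ^ 2 - x ^ 4 := by
  have hK0 : 0 ≤ K := by linarith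
  obtain ⟨R, hRdef⟩ : ∃ R, R = √K := ⟨_, rfl⟩
  have hKR : K = R ^ 2 := by rw [hRdef, Real.sq_sqrt hK0]
  have hR : 1000 ≤ R := by
    rw [hRdef]
    apply Real.le_sqrt_of_sq_le
    norm_num
    exact hK
  rw [← hRdef] at hx hy hz hv hw ⊢
  subst hKR
  have hE := Est_core R N x y z v w hR hN1 hN2 hy hz hv hw heq
  have hx2 : x ^ 2 = |x| ^ 2 := by rw [sq_abs]
  have hx4 : x ^ 4 = |x| ^ 4 := by
    have : x ^ 4 = (x ^ 2) ^ 2 := by ring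
    rw [this, hx2]
    ring
  have hfac : |x ^ 5 - 10 * R ^ 2 * x ^ 3 + 15 * R ^ 4 * x| = |x| * |(|x| ^ 4 - 10 * R ^ 2 * |x| ^ 2 + 15 * R ^ 4)| := by
    have : x ^ 5 - 10 * R ^ 2 * x ^ 3 + 15 * R ^ 4 * x = x * (x ^ 4 - 10 * R ^ 2 * x ^ 2 + 15 * R ^ 4) := by ring
    rw [this, abs_mul, hx4, hx2]
  rw [hfac] at hE
  rw [hx2, hx4]
  rcases le_or_gt |x| (R / 10) with hc | hc
  · left
    exact Est_small R |x| hR (abs_nonneg x) hc hE
  · right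
    exact Est_large R |x| hR hx hc hE

end TightIndep.FV
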