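import Pool.Agent.Lib.MP_f31b39_co.FV.Defs

/-!
# FV-Max: the maximum of the character sums
-/

namespace TightIndep.FV

open Finset

private theorem Max_num {M K : ℝ} (hK : 2 ≤ K) (hM0 : 0 ≤ M) (hM : 100 * K < M ^ 2)
    (h : M ^ 5 ≤ 20 * M ^ 3 * K + 60 * M * K ^ 2 + 20 * M ^ 2 * K + 40 * K ^ 2 + 60 * M * K + 24 * K) : False := by
  have h10 : 10 < M := by nlinarith
  have k1 : K ≤ M ^ 2 / 100 := by linarith
  have k2 : K ^ 2 ≤ (M ^ 2 / 100) ^ 2 := pow_le_pow_left₀ (by linarith) k1 2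
  have h1 : 20 * M ^ 3 * K ≤ 20 * M ^ 3 * (M ^ 2 / 100) := mul_le_mul_of_nonneg_left k1 (by positivity)
  have h2 : 60 * M * K ^ 2 ≤ 60 * M * (M ^ 2 / 100) ^ 2 := mul_le_mul_of_nonneg_left k2 (by positivity)
  have h3 : 20 * M ^ 2 * K ≤ 20 * M ^ 2 * (M ^ 2 / 100) := mul_le_mul_of_nonneg_left k1 (by positivity)
  have h4 : 60 * M * K ≤ 60 * M * (M ^ 2 / 100) := mul_le_mul_of_nonneg_left k1 (by positivity)
  have m1 : M ^ 4 * 10 ≤ M ^ 4 * M := mul_le_mul_of_nonneg_left h10.le (by positivity)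
  have m2 : M ^ 3 * 10 ≤ M ^ 3 * M := mul_le_mul_of_nonneg_left h10.le (by positivity)
  have m3 : M ^ 2 * 10 ≤ M ^ 2 * M := mul_le_mul_of_nonneg_left h10.le (by positivity)
  have m4 : 0 < M ^ 5 := by positivity
  nlinarith

private theorem Max_abs {X Y z V w M K : ℝ} (hM0 : 0 ≤ M) (hMK : M ≤ K) (hX : |X| = M) (hY : |Y| ≤ M + K) (hz : |z| ≤ K)
    (hV : |V| ≤ 2 * K) (hw : |w| ≤ K)
    (h : X ^ 5 + 10 * X ^ 3 * Y + 15 * X * Y ^ 2 + 20 * X ^ 2 * z + 20 * Y * z + 30 * X * V + 24 * w = 0) :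
    M ^ 5 ≤ 20 * M ^ 3 * K + 60 * M * K ^ 2 + 20 * M ^ 2 * K + 40 * K ^ 2 + 60 * M * K + 24 * K := by
  have hK0 : 0 ≤ K := hM0.trans hMK
  have hY2 : |Y| ≤ 2 * K := by linarith
  have e : X ^ 5 = -(10 * X ^ 3 * Y + 15 * X * Y ^ 2 + 20 * X ^ 2 * z + 20 * Y * z + 30 * X * V + 24 * w) := by linarith
  have t1 := abs_add_le (10 * X ^ 3 * Y + 15 * X * Y ^ 2 + 20 * X ^ 2 * z + 20 * Y * z + 30 * X * V) (24 * w)
  have t2 := abs_add_le (10 * X ^ 3 * Y + 15 * X * Y ^ 2 + 20 * X ^ 2 * z + 20 * Y * z) (30 * X * V)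
  have t3 := abs_add_le (10 * X ^ 3 * Y + 15 * X * Y ^ 2 + 20 * X ^ 2 * z) (20 * Y * z)
  have t4 := abs_add_le (10 * X ^ 3 * Y + 15 * X * Y ^ 2) (20 * X ^ 2 * z)
  have t5 := abs_add_le (10 * X ^ 3 * Y) (15 * X * Y ^ 2)
  have s1 : |10 * X ^ 3 * Y| ≤ 10 * M ^ 3 * (2 * K) := by
    rw [abs_mul, abs_mul, abs_pow, hX, Nat.abs_ofNat]
    exact mul_le_mul_of_nonneg_left hY2 (by positivity)
  have s2 : |15 * X * Y ^ 2| ≤ 15 * M * (2 * K) ^ 2 := by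
    rw [abs_mul, abs_mul, abs_pow, hX, Nat.abs_ofNat]
    exact mul_le_mul_of_nonneg_left (pow_le_pow_left₀ (abs_nonneg _) hY2 2) (by positivity)
  have s3 : |20 * X ^ 2 * z| ≤ 20 * M ^ 2 * K := by
    rw [abs_mul, abs_mul, abs_pow, hX, Nat.abs_ofNat]
    exact mul_le_mul_of_nonneg_left hz (by positivity)
  have s4 : |20 * Y * z| ≤ 20 * (2 * K) * K := by
    rw [abs_mul, abs_mul, Nat.abs_ofNat]
    exact mul_le_mul (mul_le_mul_of_nonneg_left hY2 (by norm_num)) hz (abs_nonneg _) (by positivity)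
  have s5 : |30 * X * V| ≤ 30 * M * (2 * K) := by
    rw [abs_mul, abs_mul, hX, Nat.abs_ofNat]
    exact mul_le_mul_of_nonneg_left hV (by positivity)
  have s6 : |24 * w| ≤ 24 * K := by
    rw [abs_mul, Nat.abs_ofNat]
    exact mul_le_mul_of_nonneg_left hw (by norm_num)
  have e2 : M ^ 5 = |X ^ 5| := by rw [abs_pow, hX]
  rw [e2, e, abs_neg]
  calc _ ≤ 10 * M ^ 3 * (2 * K) + 15 * M * (2 * K) ^ 2 + 20 * M ^ 2 * K + 20 * (2 * K) * K + 30 * M * (2 * K) + 24 * K := by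
        linarith
    _ = _ := by ring

theorem max5 {n : ℕ} [NeZero n] (x : ZMod n → ℝ) (K N : ℝ) (hK : 2 ≤ K) (hN1 : K - 2 ≤ 2 * N)
    (hN2 : 2 * N ≤ K) (hx : ∀ j, |x j| ≤ K)
    (heq : ∀ j : ZMod n, 2 * j ≠ 0 →
      F5 N (x j) (x (2 * j)) (x (3 * j)) (x (4 * j)) (x (5 * j)) = 0)
    (h4 : ∀ j : ZMod n, 2 * j ≠ 0 → 4 * j = 0 → x j = 0) :
    ∀ j : ZMod n, 2 * j ≠ 0 → |x j| ≤ 10 * √K := by
  classical
  intro i hi
  obtain ⟨j, hj, hmax⟩ := exists_max_image (univ.filter fun j : ZMod n => 2 * j ≠ 0) (fun j => |x j|)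
    ⟨i, mem_filter.2 ⟨mem_univ _, hi⟩⟩
  have hj2 : 2 * j ≠ 0 := (mem_filter.1 hj).2
  have hmax' : ∀ l : ZMod n, 2 * l ≠ 0 → |x l| ≤ |x j| := fun l hl => hmax l (mem_filter.2 ⟨mem_univ _, hl⟩)
  refine (hmax' i hi).trans ?_
  by_cases h4j : 4 * j = 0
  · rw [h4 j hj2 h4j, abs_zero]
    positivity
  · have h22 : 2 * (2 * j) ≠ 0 := by
      rw [← mul_assoc]
      norm_num
      exact h4j
    by_contra hcon
    push Not at hcon
    have hM0 : 0 ≤ |x j| := abs_nonneg _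
    have hM : 100 * K < |x j| ^ 2 := by
      have h1 : (10 * √K) ^ 2 < |x j| ^ 2 := pow_lt_pow_left₀ hcon (by positivity) two_ne_zero
      rw [mul_pow, Real.sq_sqrt (by linarith)] at h1
      linarith
    have hN0 : 0 ≤ 2 * N := by linarith
    have e := heq j hj2
    unfold F5 at e
    refine Max_num hK hM0 hM (Max_abs (X := x j) (Y := x (2 * j) - 2 * N) (z := x (3 * j)) (V := x (4 * j) - 2 * N)
      (w := x (5 * j)) hM0 (hx j) rfl ?_ (hx _) ?_ (hx _) (by linarith))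
    · have h1 := hmax' _ h22
      have h2 := abs_le.1 h1
      rw [abs_le]
      constructor <;> linarith [h2.1, h2.2]
    · have h2 := abs_le.1 (hx (4 * j))
      rw [abs_le]
      constructor <;> linarith [h2.1, h2.2]

end TightIndep.FV
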