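import Pool.Agent.Lib.MP_f31b39_co.FV.Defs
import Pool.Agent.Lib.MP_f31b39_co.T7.Par
import Pool.Agent.Lib.MP_f31b39_co.T7.Main

/-!
# FV-Odd: the elements are odd for `t = 11`
-/

namespace TightIndep.FV

open Finset

private theorem fam_surj11 {G : Type} [AddCommGroup G] [Fintype G] {m : ℕ} (a : Fin (m + 1) → G)
    (h : ∀ v ∈ rel a, v ≠ 0 → 12 ≤ nrm v) (hG : Fintype.card G = bound (m + 1) 11) (g : G) :
    ∃ u : Fin (m + 1) → ℤ, ∑ i, u i • a i = g := by
  have h1 := sum_image_fam 11 a h (dball 6 (0, true)) (by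
    intro u hu u' hu'
    rw [mem_dball] at hu hu'
    have h3 := nrm_sub_le u u'
    have h4 := nrm_sub_le (u + ud (0, true)) (u' + ud (0, true))
    rw [add_sub_add_right_eq_sub] at h4
    have h5 : nrm (u' + ud (0, true) - ud (0, true)) ≤ nrm (u' + ud (0, true)) +
      nrm (ud ((0 : Fin (m + 1)), true)) := nrm_sub_le _ _
    have h6 : nrm (u + ud (0, true) - ud (0, true)) ≤ nrm (u + ud (0, true)) +
      nrm (ud ((0 : Fin (m + 1)), true)) := nrm_sub_le _ _
    rw [add_sub_cancel_right, nrm_ud] at h5 h6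
    omega) (by
    rw [hG, card_dball, show (11 : ℕ) = 2 * 6 - 1 by norm_num, bound_odd m 6 (by norm_num)])
  obtain ⟨u, -, hu⟩ := h1.1 g
  exact ⟨u, hu⟩

theorem odd_val11 {n : ℕ} [NeZero n] {m : ℕ} (a : Fin (m + 1) → ZMod n)
    (h : ∀ v ∈ rel a, v ≠ 0 → 12 ≤ nrm v) (hG : Fintype.card (ZMod n) = bound (m + 1) 11)
    (i : Fin (m + 1)) : Odd (a i).val := by
  have hL : Lat (m + 1) 6 (2 * 6) (rel a) :=
    lat_of_family 11 (by norm_num) a (by omega) (fun v hv hv0 => h v hv hv0) hG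
  obtain ⟨u, hu⟩ := fam_surj11 a h hG 1
  have h1 : (fun j => ((a i).val : ℤ) * u j - (if j = i then 1 else 0)) ∈ rel a := by
    show ∑ j, (((a i).val : ℤ) * u j - (if j = i then 1 else 0)) • a j = 0
    simp only [sub_smul, mul_smul, Finset.sum_sub_distrib, ← Finset.smul_sum, hu, ite_smul,
      one_smul, zero_smul, Finset.sum_ite_eq', Finset.mem_univ, if_true]
    simp
  have h2 := T7.even_sum hL _ h1
  rw [Finset.sum_sub_distrib, ← Finset.mul_sum, Finset.sum_ite_eq' Finset.univ i,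
    if_pos (Finset.mem_univ _)] at h2
  have h3 : Odd (((a i).val : ℤ) * ∑ j, u j) := by
    have := h2.add_odd (odd_one : Odd (1 : ℤ))
    simpa using this
  have h4 : Odd (((a i).val : ℕ) : ℤ) := (Int.odd_mul.1 h3).1
  exact_mod_cast h4

end TightIndep.FV
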