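import Pool.Agent.Lib.MP_f31b39_co.FV.Defs

/-!
# FV-Om8: a bound for the number of prime factors
-/

namespace TightIndep.FV

open Finset

private lemma cnt256 : ((range 256).filter Nat.Prime).card = 54 := by
  decide +kernel

theorem om8 (n : ℕ) (hn : 0 < n) : (2 ^ n.primeFactors.card) ^ 8 ≤ 256 ^ 54 * n := by
  have h1 : (n.primeFactors.filter (fun p => p < 256)).card ≤ 54 := by
    rw [← cnt256]
    apply card_le_card
    intro p hp
    rw [mem_filter] at hp
    rw [mem_filter, mem_range]
    exact ⟨hp.2, Nat.prime_of_mem_primeFactors hp.1⟩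
  have h2 : 256 ^ (n.primeFactors.filter (fun p => ¬ p < 256)).card ≤ n := by
    have h3 : 256 ^ (n.primeFactors.filter (fun p => ¬ p < 256)).card ≤
        ∏ p ∈ n.primeFactors.filter (fun p => ¬ p < 256), p := by
      apply Finset.pow_card_le_prod
      intro p hp
      rw [mem_filter] at hp
      omega
    have h4 : ∏ p ∈ n.primeFactors.filter (fun p => ¬ p < 256), p ∣ ∏ p ∈ n.primeFactors, p :=
      Finset.prod_dvd_prod_of_subset _ _ _ (filter_subset _ _)
    exact h3.trans (Nat.le_of_dvd hn (h4.trans (Nat.prod_primeFactors_dvd n)))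
  have h5 : n.primeFactors.card = (n.primeFactors.filter (fun p => p < 256)).card +
      (n.primeFactors.filter (fun p => ¬ p < 256)).card :=
    (Finset.card_filter_add_card_filter_not _).symm
  calc (2 ^ n.primeFactors.card) ^ 8 = 256 ^ n.primeFactors.card := by
        rw [← pow_mul, mul_comm, pow_mul]; norm_num
    _ = 256 ^ (n.primeFactors.filter (fun p => p < 256)).card *
        256 ^ (n.primeFactors.filter (fun p => ¬ p < 256)).card := by
        rw [← pow_add, ← h5]
    _ ≤ 256 ^ 54 * n := by
        apply Nat.mul_le_mul _ h2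
        exact Nat.pow_le_pow_right (by norm_num) h1

private lemma sum_le (k c : ℕ) (hc : ∑ i ∈ range (k + 1), k.choose i * 2 ^ i = c) (s : Finset ℕ) :
    ∑ i ∈ s, k.choose i * 2 ^ i ≤ c := by
  rw [← hc]
  calc ∑ i ∈ s, k.choose i * 2 ^ i
      = ∑ i ∈ s.filter (fun i => i < k + 1), k.choose i * 2 ^ i := by
        symm
        apply sum_subset (filter_subset _ _)
        intro i hi hi2
        rw [mem_filter, not_and] at hi2
        have h3 : k < i := by
          have := hi2 hi
          omega
        rw [Nat.choose_eq_zero_of_lt h3, zero_mul]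
    _ ≤ ∑ i ∈ range (k + 1), k.choose i * 2 ^ i := by
        apply sum_le_sum_of_subset
        intro i hi
        rw [mem_filter] at hi
        exact mem_range.2 hi.2

theorem bd10 (m : ℕ) (hm : 1 ≤ m) : bound m 10 ≤ 243 * m ^ 5 := by
  unfold bound
  rw [if_pos (by decide)]
  calc ∑ i ∈ range (m + 1), m.choose i * (10 / 2).choose i * 2 ^ i
      ≤ ∑ i ∈ range (m + 1), m ^ 5 * ((5).choose i * 2 ^ i) := by
        apply sum_le_sum
        intro i _
        rcases le_or_gt i 5 with h | h
        · have h1 : m.choose i ≤ m ^ 5 :=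
            (Nat.choose_le_pow m i).trans (Nat.pow_le_pow_right hm h)
          rw [mul_assoc]
          exact Nat.mul_le_mul_right _ h1
        · rw [Nat.choose_eq_zero_of_lt (show 10 / 2 < i by omega)]
          simp
    _ = m ^ 5 * ∑ i ∈ range (m + 1), (5).choose i * 2 ^ i := by rw [mul_sum]
    _ ≤ m ^ 5 * 243 := Nat.mul_le_mul_left _ (sum_le 5 243 (by decide) _)
    _ = 243 * m ^ 5 := mul_comm _ _

theorem bd11 (m : ℕ) (hm : 1 ≤ m) : bound m 11 ≤ 729 * m ^ 5 := by
  unfold bound
  rw [if_neg (by decide)]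
  calc ∑ i ∈ Icc 1 m, (m - 1).choose (i - 1) * ((11 + 1) / 2).choose i * 2 ^ i
      ≤ ∑ i ∈ Icc 1 m, m ^ 5 * ((6).choose i * 2 ^ i) := by
        apply sum_le_sum
        intro i _
        rcases le_or_gt i 6 with h | h
        · have h1 : (m - 1).choose (i - 1) ≤ m ^ 5 :=
            ((Nat.choose_le_pow (m - 1) (i - 1)).trans
              (Nat.pow_le_pow_left (Nat.sub_le m 1) _)).trans
              (Nat.pow_le_pow_right hm (by omega))
          rw [mul_assoc]
          exact Nat.mul_le_mul_right _ h1
        · rw [Nat.choose_eq_zero_of_lt (show (11 + 1) / 2 < i by omega)]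
          simp
    _ = m ^ 5 * ∑ i ∈ Icc 1 m, (6).choose i * 2 ^ i := by rw [mul_sum]
    _ ≤ m ^ 5 * 729 := Nat.mul_le_mul_left _ (sum_le 6 729 (by decide) _)
    _ = 729 * m ^ 5 := mul_comm _ _

end TightIndep.FV
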