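import Pool.Agent.Lib.MP_f31b39_co.FV.Ten

/-!
# FV-X10: the real character sums and their equation for `t = 10`
-/

namespace TightIndep.FV

open Finset NO

private theorem x10_sum {n : ℕ} [NeZero n] {m : ℕ} (a : Fin m → ZMod n) (j : ZMod n) :
    ∑ i, (ZMod.stdAddChar (j * sg a i) : ℂ) =
      1 + ∑ i, (ZMod.stdAddChar (j * a i) + (ZMod.stdAddChar (j * a i) : ℂ)⁻¹) := by
  rw [Fintype.sum_option, Fintype.sum_prod_type]
  congr 1
  · simp [sg]
  · refine Finset.sum_congr rfl fun i _ => ?_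
    rw [Fintype.sum_bool]
    simp only [sg]
    rw [mul_neg, AddChar.map_neg_eq_inv]

private theorem x10_mul {n : ℕ} [NeZero n] {m : ℕ} (a : Fin m → ZMod n) (j : ZMod n) (k : ℕ) :
    ∑ i, (ZMod.stdAddChar ((k : ZMod n) * j * sg a i) : ℂ) =
      1 + ∑ i, ((ZMod.stdAddChar (j * a i) : ℂ) ^ k + ((ZMod.stdAddChar (j * a i) : ℂ)⁻¹) ^ k) := by
  rw [x10_sum]
  congr 1
  refine Finset.sum_congr rfl fun i _ => ?_
  have h1 : (ZMod.stdAddChar ((k : ZMod n) * j * a i) : ℂ) = (ZMod.stdAddChar (j * a i) : ℂ) ^ k := by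
    rw [← AddChar.map_nsmul_eq_pow, nsmul_eq_mul, mul_assoc]
  rw [h1, inv_pow]

private theorem x10_real {n : ℕ} [NeZero n] {m : ℕ} (a : Fin m → ZMod n) (j : ZMod n) :
    (((∑ i, (ZMod.stdAddChar (j * sg a i) : ℂ)).re : ℝ) : ℂ) = ∑ i, (ZMod.stdAddChar (j * sg a i) : ℂ) := by
  rw [← Complex.conj_eq_iff_re, x10_sum, map_add, map_one, map_sum]
  congr 1
  refine Finset.sum_congr rfl fun i _ => ?_
  rw [map_add, ← AddChar.map_neg_eq_inv, ← AddChar.map_neg_eq_conj, ← AddChar.map_neg_eq_conj, neg_neg, add_comm]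

theorem x10 {n : ℕ} [NeZero n] {m : ℕ} (a : Fin m → ZMod n)
    (h : ∀ v ∈ rel a, v ≠ 0 → 11 ≤ nrm v) (hG : Fintype.card (ZMod n) = bound m 10) :
    ∃ x : ZMod n → ℝ, (∀ j, (x j : ℂ) = ∑ i, ZMod.stdAddChar (j * sg a i)) ∧
      (∀ j, |x j| ≤ 2 * m + 1) ∧
      ∀ j : ZMod n, j ≠ 0 →
        F5 (m : ℝ) (x j) (x (2 * j)) (x (3 * j)) (x (4 * j)) (x (5 * j)) = 0 := by
  refine ⟨fun j => (∑ i, (ZMod.stdAddChar (j * sg a i) : ℂ)).re, fun j => x10_real a j, fun j => ?_, fun j hj => ?_⟩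
  · refine (Complex.abs_re_le_norm _).trans ((norm_sum_le _ _).trans ?_)
    have h1 : ∀ i ∈ (Finset.univ : Finset (Option (Fin m × Bool))),
        ‖(ZMod.stdAddChar (j * sg a i) : ℂ)‖ = 1 := fun i _ => AddChar.norm_apply _ _
    rw [Finset.sum_congr rfl h1]
    simp only [Finset.sum_const, Finset.card_univ, Fintype.card_option, Fintype.card_prod, Fintype.card_fin,
      Fintype.card_bool, nsmul_eq_mul, mul_one]
    push_cast
    linarith
  · have hχ : AddChar.mulShift (ZMod.stdAddChar : AddChar (ZMod n) ℂ) j ≠ 1 := ZMod.isPrimitive_stdAddChar n hj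
    have h1 := ten_eq a h hG (AddChar.mulShift (ZMod.stdAddChar : AddChar (ZMod n) ℂ) j) hχ
    simp only [AddChar.mulShift_apply] at h1
    have e2 := x10_mul a j 2
    have e3 := x10_mul a j 3
    have e4 := x10_mul a j 4
    have e5 := x10_mul a j 5
    rw [Nat.cast_ofNat] at e2 e3 e4 e5
    rw [← x10_sum, ← e2, ← e3, ← e4, ← e5, ← x10_real a j, ← x10_real a (2 * j), ← x10_real a (3 * j),
      ← x10_real a (4 * j), ← x10_real a (5 * j)] at h1
    unfold F5 at h1 ⊢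
    exact_mod_cast h1

end TightIndep.FV
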