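import Pool.Agent.Lib.MP_f31b39_co.FV.Elev

/-!
# FV-X11: the real character sums and their equation for `t = 11`
-/

namespace TightIndep.FV

open Finset NO

private theorem ch_pow {n : ℕ} [NeZero n] (k : ℕ) (j g : ZMod n) :
    (ZMod.stdAddChar (j * g) : ℂ) ^ k = ZMod.stdAddChar ((k : ZMod n) * j * g) := by
  rw [← AddChar.map_nsmul_eq_pow, nsmul_eq_mul, mul_assoc]

private theorem ch_ne {n : ℕ} [NeZero n] (g : ZMod n) : (ZMod.stdAddChar g : ℂ) ≠ 0 := by
  intro h0
  have h1 : (ZMod.stdAddChar (g + -g) : ℂ) = 1 := by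
    rw [add_neg_cancel, AddChar.map_zero_eq_one]
  rw [AddChar.map_add_eq_mul, h0, zero_mul] at h1
  exact zero_ne_one h1

private theorem ch_one {n : ℕ} [NeZero n] {g : ZMod n} (hg : g ≠ 0) :
    (ZMod.stdAddChar g : ℂ) ≠ 1 := by
  intro h
  apply hg
  apply ZMod.injective_stdAddChar
  rw [h, AddChar.map_zero_eq_one]

private theorem ch_sum {n : ℕ} [NeZero n] {m : ℕ} (a : Fin m → ZMod n) (j : ZMod n) :
    ∑ i, (ZMod.stdAddChar (j * sg a (some i)) : ℂ) =
      ∑ i, ((ZMod.stdAddChar (j * a i) : ℂ) + (ZMod.stdAddChar (j * a i) : ℂ)⁻¹) := by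
  rw [Fintype.sum_prod_type]
  refine sum_congr rfl fun i _ => ?_
  rw [Fintype.sum_bool]
  show (ZMod.stdAddChar (j * a i) : ℂ) + ZMod.stdAddChar (j * -a i) = _
  rw [mul_neg, AddChar.map_neg_eq_inv]

private theorem ch_real {n : ℕ} [NeZero n] {m : ℕ} (a : Fin m → ZMod n) (j : ZMod n) :
    ((∑ i, 2 * (ZMod.stdAddChar (j * a i) : ℂ).re : ℝ) : ℂ) =
      ∑ i, (ZMod.stdAddChar (j * sg a (some i)) : ℂ) := by
  rw [ch_sum]
  push_cast
  refine sum_congr rfl fun i _ => ?_
  rw [← AddChar.map_neg_eq_inv, AddChar.map_neg_eq_conj, Complex.add_conj]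
  push_cast
  ring

theorem x11 {n : ℕ} [NeZero n] {m : ℕ} (a : Fin (m + 1) → ZMod n)
    (h : ∀ v ∈ rel a, v ≠ 0 → 12 ≤ nrm v) (hG : Fintype.card (ZMod n) = bound (m + 1) 11)
    (hodd : ∀ i, Odd (a i).val) :
    ∃ x : ZMod n → ℝ, (∀ j, (x j : ℂ) = ∑ i, ZMod.stdAddChar (j * sg a (some i))) ∧
      (∀ j, |x j| ≤ 2 * (m + 1)) ∧
      (∀ j : ZMod n, 2 * j ≠ 0 →
        F5 (m : ℝ) (x j) (x (2 * j)) (x (3 * j)) (x (4 * j)) (x (5 * j)) = 0) ∧
      ∀ j : ZMod n, 2 * j ≠ 0 → 4 * j = 0 → x j = 0 := by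
  refine ⟨fun j => ∑ i, 2 * (ZMod.stdAddChar (j * a i) : ℂ).re, fun j => ch_real a j,
    fun j => ?_, fun j hj => ?_, fun j hj h4 => ?_⟩
  · refine (Finset.abs_sum_le_sum_abs _ _).trans ?_
    have h1 : ∀ i ∈ (Finset.univ : Finset (Fin (m + 1))), |2 * (ZMod.stdAddChar (j * a i) : ℂ).re| ≤ 2 := by
      intro i _
      have h2 := Complex.abs_re_le_norm (ZMod.stdAddChar (j * a i) : ℂ)
      rw [AddChar.norm_apply] at h2
      rw [abs_mul, abs_two]
      linarith
    refine (Finset.sum_le_sum h1).trans ?_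
    simp only [Finset.sum_const, Finset.card_univ, Fintype.card_fin, nsmul_eq_mul]
    push_cast
    linarith
  · have hχ : ∃ g, (ZMod.stdAddChar.mulShift j : AddChar (ZMod n) ℂ) g ^ 2 ≠ 1 := by
      refine ⟨1, ?_⟩
      rw [AddChar.mulShift_apply, ch_pow]
      apply ch_one
      simpa using hj
    have he := eleven_eq a h hG (ZMod.stdAddChar.mulShift j) hχ
    simp only [AddChar.mulShift_apply] at he
    have ek : ∀ k : ℕ, ∑ i, ((ZMod.stdAddChar (j * a i) : ℂ) ^ k + (ZMod.stdAddChar (j * a i) : ℂ)⁻¹ ^ k) =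
        ((∑ i, 2 * (ZMod.stdAddChar ((k : ZMod n) * j * a i) : ℂ).re : ℝ) : ℂ) := by
      intro k
      rw [ch_real a ((k : ZMod n) * j), ch_sum]
      refine sum_congr rfl fun i _ => ?_
      rw [inv_pow, ch_pow]
    have e1 := ek 1
    have e2 := ek 2
    have e3 := ek 3
    have e4 := ek 4
    have e5 := ek 5
    simp only [pow_one, Nat.cast_one, one_mul] at e1
    rw [Nat.cast_ofNat] at e2 e3 e4 e5
    rw [e1, e2, e3, e4, e5] at he
    unfold F5 at he ⊢
    exact_mod_cast he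
  · have h0 : ((∑ i, 2 * (ZMod.stdAddChar (j * a i) : ℂ).re : ℝ) : ℂ) = 0 := by
      rw [ch_real, ch_sum]
      refine sum_eq_zero fun i _ => ?_
      have hs : (ZMod.stdAddChar (2 * j) : ℂ) = -1 := by
        have h1 : (ZMod.stdAddChar (2 * j) : ℂ) ^ 2 = 1 := by
          rw [← AddChar.map_nsmul_eq_pow, nsmul_eq_mul]
          have : ((2 : ℕ) : ZMod n) * (2 * j) = 0 := by
            rw [← h4]
            push_cast
            ring
          rw [this, AddChar.map_zero_eq_one]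
        rcases sq_eq_one_iff.1 h1 with h2 | h2
        · exact absurd h2 (ch_one hj)
        · exact h2
      have ha : (2 * j) * a i = 2 * j := by
        obtain ⟨k, hk⟩ := hodd i
        have h1 : a i = 2 * (k : ZMod n) + 1 := by
          rw [← ZMod.natCast_zmod_val (a i), hk]
          push_cast
          ring
        rw [h1]
        linear_combination (k : ZMod n) * h4
      have hz : (ZMod.stdAddChar (j * a i) : ℂ) ^ 2 = -1 := by
        rw [ch_pow, Nat.cast_ofNat, ha, hs]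
      have hz0 := ch_ne (j * a i)
      field_simp
      rw [hz]
      ring
    exact_mod_cast h0


end TightIndep.FV
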