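import Pool.Agent.Lib.MP_f31b39_co.FV.Mom4
import Pool.Agent.Lib.MP_f31b39_co.FV.CntU
import Pool.Agent.Lib.MP_f31b39_co.FV.CntL
import Pool.Agent.Lib.MP_f31b39_co.FV.Max
import Pool.Agent.Lib.MP_f31b39_co.FV.Core
import Pool.Agent.Lib.MP_f31b39_co.FV.Om8
import Pool.Agent.Lib.MP_f31b39_co.FV.X10
import Pool.Agent.Lib.MP_f31b39_co.FV.X11
import Pool.Agent.Lib.MP_f31b39_co.FV.Odd
import Pool.Agent.Lib.MP_f31b39_co.NO.Mom
import Pool.Agent.Lib.MP_f31b39_co.NO.Norm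
import Pool.Agent.Lib.MP_f31b39_co.NO.Dif

/-!
# FV-Fin: the assembly
-/

namespace TightIndep.FV

open Finset NO

/-- the norm argument -/
theorem norm_arg5 {n : ℕ} [NeZero n] (hn : 11 ≤ n) {ι : Type} [Fintype ι]
    [DecidableEq ι] (g : ι → ZMod n) (hg : Function.Injective g)
    (hd : ∀ i k : ι, i ≠ k →
      (univ.filter fun p : ι × ι => g p.1 - g p.2 = g i - g k).card ≤ 2)
    (ng : ι → ι) (hng : ∀ i, g (ng i) = - g i) (hng2 : ∀ i, ng (ng i) = i)
    (hB : ∀ y : ZMod n, y ≠ 0 → (univ.filter fun p : ι × ι × ι × ι =>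
      g p.1 + g p.2.1 - g p.2.2.1 - g p.2.2.2 = y).card ≤ 48 * (Fintype.card ι + 1))
    (x : ZMod n → ℝ) (hx : ∀ j, (x j : ℂ) = ∑ i, ZMod.stdAddChar (j * g i)) (N : ℝ)
    (hN1 : (Fintype.card ι : ℝ) - 2 ≤ 2 * N) (hN2 : 2 * N ≤ Fintype.card ι)
    (hxK : ∀ j, |x j| ≤ Fintype.card ι)
    (heq : ∀ j : ZMod n, 2 * j ≠ 0 →
      F5 N (x j) (x (2 * j)) (x (3 * j)) (x (4 * j)) (x (5 * j)) = 0)
    (h4 : ∀ j : ZMod n, 2 * j ≠ 0 → 4 * j = 0 → x j = 0)
    (hK : (400 : ℝ) ^ 60 < Fintype.card ι)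
    (hE : 4000 * (2 : ℝ) ^ n.primeFactors.card ≤ Fintype.card ι) : False := by
  obtain ⟨K, hKd⟩ : ∃ K : ℝ, K = Fintype.card ι := ⟨_, rfl⟩
  obtain ⟨W, hW⟩ : ∃ W : ℝ, W = 2 ^ n.primeFactors.card := ⟨_, rfl⟩
  have hW1 : 1 ≤ W := by rw [hW]; exact one_le_pow₀ (by norm_num)
  obtain ⟨h1, h2⟩ := ep_em n (by omega)
  have h1R : 2 * (ep n : ℝ) + 2 = 2 ^ n.primeFactors.card := by exact_mod_cast h1
  have h2R : 2 * (em n : ℝ) = 2 ^ n.primeFactors.card := by exact_mod_cast h2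
  obtain ⟨m1, m2⟩ := mom g hg hd x hx
  have hA := cnt_ge g ng hng hng2
  have m4 := mom4 (by omega) g x hx _ _ le_rfl hB
  have hAR : 3 * (Fintype.card ι : ℝ) ^ 2 ≤ ((univ.filter fun p : ι × ι × ι × ι =>
      g p.1 + g p.2.1 - g p.2.2.1 - g p.2.2.2 = 0).card : ℝ) + 3 * Fintype.card ι := by
    exact_mod_cast hA
  push_cast at m4
  have hφ : (0 : ℝ) < Nat.totient n := by
    exact_mod_cast Nat.totient_pos.2 (by omega)
  rw [← hKd] at hN1 hN2 hK hE m1 m2 hAR m4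
  simp_rw [← hKd] at hxK
  rw [← hW] at hE h1R h2R m4
  clear hA hB hd hg h1 h2
  have hK1 : (400 : ℝ) ^ 60 ≥ 1000 := by norm_num
  have hpos : 0 < ∑ u : (ZMod n)ˣ, x u ^ 2 := by
    refine lt_of_lt_of_le ?_ m2
    apply mul_pos hφ
    rw [h2R]
    linarith
  have hne : ∃ u : (ZMod n)ˣ, x u ≠ 0 := by
    by_contra hno
    push Not at hno
    rw [Finset.sum_eq_zero fun u _ => by rw [hno u]; ring] at hpos
    exact lt_irrefl _ hpos
  have hNo := norm_ge g x hx hne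
  have hmax := max5 x K N (by linarith) hN1 hN2 hxK heq h4
  refine core5 hn x K N hK hN1 hN2 hmax heq ?_ hNo
  rw [Finset.sum_sub_distrib, ← Finset.mul_sum]
  have h5 : 10 * K * ∑ u : (ZMod n)ˣ, x u ^ 2 ≤ 10 * K * ((Nat.totient n : ℝ) * (K + 2 * ep n)) :=
    mul_le_mul_of_nonneg_left m1 (by linarith)
  have h6 : (Nat.totient n : ℝ) * (3 * K ^ 2 - 3 * K - 48 * (K + 1) * W) ≤
      ∑ u : (ZMod n)ˣ, x u ^ 4 :=
    le_trans (mul_le_mul_of_nonneg_left (by linarith) hφ.le) m4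
  have h7 : (Nat.totient n : ℝ) * (10 * K * (K + 2 * ep n)) -
      (Nat.totient n : ℝ) * (3 * K ^ 2 - 3 * K - 48 * (K + 1) * W) ≤
      (Nat.totient n : ℝ) * (15 * K ^ 2 * (15 / 32)) := by
    rw [← mul_sub]
    apply mul_le_mul_of_nonneg_left _ hφ.le
    have h8 : 2 * (ep n : ℝ) = W - 2 := by linarith
    rw [h8]
    have h9 : K * W ≤ K * (K / 4000) := mul_le_mul_of_nonneg_left (by linarith) (by linarith)
    have h10 : (1000 : ℝ) * K ≤ K * K := mul_le_mul_of_nonneg_right (by linarith) (by linarith)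
    nlinarith
  linarith

private theorem small_w {n m : ℕ} (hn : 0 < n) (hb : n ≤ 729 * m ^ 5) (hm : 400 ^ 59 ≤ m) :
    4000 * 2 ^ n.primeFactors.card ≤ m := by
  by_contra hcon
  push Not at hcon
  have h1 := om8 n hn
  have h2 : (m : ℕ) ^ 8 ≤ 4000 ^ 8 * (256 ^ 54 * (729 * m ^ 5)) := by
    calc (m : ℕ) ^ 8 ≤ (4000 * 2 ^ n.primeFactors.card) ^ 8 := Nat.pow_le_pow_left hcon.le 8
      _ = 4000 ^ 8 * (2 ^ n.primeFactors.card) ^ 8 := by rw [mul_pow]
      _ ≤ 4000 ^ 8 * (256 ^ 54 * n) := Nat.mul_le_mul_left _ h1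
      _ ≤ 4000 ^ 8 * (256 ^ 54 * (729 * m ^ 5)) :=
        Nat.mul_le_mul_left _ (Nat.mul_le_mul_left _ hb)
  have hm0 : 0 < m := lt_of_lt_of_le (by positivity) hm
  have h3 : m ^ 5 * m ^ 3 ≤ m ^ 5 * (4000 ^ 8 * 256 ^ 54 * 729) := by
    calc m ^ 5 * m ^ 3 = m ^ 8 := by ring
      _ ≤ _ := h2
      _ = _ := by ring
  have h4 := Nat.le_of_mul_le_mul_left h3 (by positivity)
  have h5 : (400 ^ 59) ^ 3 ≤ m ^ 3 := Nat.pow_le_pow_left hm 3
  have h6 : ¬ ((400 ^ 59) ^ 3 ≤ 4000 ^ 8 * 256 ^ 54 * 729) := by norm_num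
  exact h6 (h5.trans h4)

theorem fin10 {n : ℕ} [NeZero n] {m : ℕ} (a : Fin m → ZMod n)
    (h : ∀ v ∈ rel a, v ≠ 0 → 11 ≤ nrm v) (hG : Fintype.card (ZMod n) = bound m 10) :
    m < 400 ^ 60 := by
  by_contra hm
  push Not at hm
  have hm59 : 400 ^ 59 ≤ m := le_trans (Nat.pow_le_pow_right (by norm_num) (by norm_num)) hm
  have hm1 : 1000 ≤ m := le_trans (by norm_num) hm59
  have hn : n = bound m 10 := by rw [← hG, ZMod.card]
  have hmn : m ≤ n := by
    have hinj : Function.Injective a := by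
      intro i k hik
      have := sg_inj a (fun v hv hv0 => (h v hv hv0).trans' (by norm_num))
      have h2 : sg a (some (i, true)) = sg a (some (k, true)) := hik
      have h3 := this h2
      simpa using h3
    have := Fintype.card_le_of_injective a hinj
    rwa [Fintype.card_fin, ZMod.card] at this
  have hb10 : n ≤ 729 * m ^ 5 := by
    rw [hn]
    exact (bd10 m (by omega)).trans (Nat.mul_le_mul_right _ (by norm_num))
  have hsm := small_w (n := n) (m := m) (by omega) hb10 hm59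
  obtain ⟨x, hx, hxK, heq⟩ := x10 a h hG
  have hcard : Fintype.card (Option (Fin m × Bool)) = 2 * m + 1 := by
    rw [Fintype.card_option, Fintype.card_prod, Fintype.card_fin, Fintype.card_bool]
    ring
  have h5 : ∀ v ∈ rel a, v ≠ 0 → 5 ≤ nrm v := fun v hv hv0 => (h v hv hv0).trans' (by norm_num)
  have h9 : ∀ v ∈ rel a, v ≠ 0 → 9 ≤ nrm v := fun v hv hv0 => (h v hv hv0).trans' (by norm_num)
  have hn2 : Odd n := by
    rw [hn]
    unfold bound
    rw [if_pos (by decide), Finset.sum_range_succ']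
    refine Even.add_odd (Finset.even_sum _ fun i _ => ?_) (by simp)
    rw [pow_succ]
    exact ((even_two).mul_left _).mul_left _
  have hodd : ∀ j : ZMod n, 2 * j = 0 → j = 0 := by
    intro j hj
    have hu : IsUnit ((2 : ℕ) : ZMod n) :=
      (ZMod.isUnit_iff_coprime 2 n).2 ((Nat.coprime_two_left).2 hn2)
    exact (hu.mul_right_eq_zero).1 (by exact_mod_cast hj)
  have hmR : (400 : ℝ) ^ 60 ≤ m := by exact_mod_cast hm
  have hsR : 4000 * (2 : ℝ) ^ n.primeFactors.card ≤ m := by exact_mod_cast hsm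
  refine norm_arg5 (n := n) (by omega) (sg a) (sg_inj a h5) (sg_diff a h5)
    (fun i => match i with
      | none => none
      | some (i, c) => some (i, !c)) ?_ ?_ ?_ x hx (m : ℝ) ?_ ?_ ?_
    (fun j hj => heq j fun h0 => hj (by rw [h0, mul_zero])) ?_ ?_ ?_
  · rintro (_ | ⟨i, _ | _⟩) <;> simp [sg]
  · rintro (_ | ⟨i, _ | _⟩) <;> rfl
  · intro y hy
    rw [hcard]
    exact (cnt_le (by omega) a h9 y hy).trans (by omega)
  · rw [hcard]; push_cast; linarith
  · rw [hcard]; push_cast; linarith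
  · intro j; rw [hcard]; push_cast; exact hxK j
  · intro j hj h4
    exact absurd (hodd (2 * j) (by rw [← mul_assoc]; norm_num; exact h4)) hj
  · rw [hcard]; push_cast; linarith
  · rw [hcard]; push_cast; linarith

theorem fin11 {n : ℕ} [NeZero n] {m : ℕ} (a : Fin (m + 1) → ZMod n)
    (h : ∀ v ∈ rel a, v ≠ 0 → 12 ≤ nrm v) (hG : Fintype.card (ZMod n) = bound (m + 1) 11) :
    m + 1 < 400 ^ 60 := by
  by_contra hm
  push Not at hm
  have hm59 : 400 ^ 59 ≤ m + 1 := le_trans (Nat.pow_le_pow_right (by norm_num) (by norm_num)) hm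
  have hm1 : 1000 ≤ m + 1 := le_trans (by norm_num) hm59
  have hn : n = bound (m + 1) 11 := by rw [← hG, ZMod.card]
  have h5 : ∀ v ∈ rel a, v ≠ 0 → 5 ≤ nrm v := fun v hv hv0 => (h v hv hv0).trans' (by norm_num)
  have h9 : ∀ v ∈ rel a, v ≠ 0 → 9 ≤ nrm v := fun v hv hv0 => (h v hv hv0).trans' (by norm_num)
  have hmn : m + 1 ≤ n := by
    have hinj : Function.Injective a := by
      intro i k hik
      have h2 : sg a (some (i, true)) = sg a (some (k, true)) := hik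
      have h3 := sg_inj a h5 h2
      simpa using h3
    have := Fintype.card_le_of_injective a hinj
    rwa [Fintype.card_fin, ZMod.card] at this
  have hsm := small_w (n := n) (m := m + 1) (by omega) (by rw [hn]; exact bd11 (m + 1) (by omega))
    hm59
  obtain ⟨x, hx, hxK, heq, h4⟩ := x11 a h hG (odd_val11 a h hG)
  have hcard : Fintype.card (Fin (m + 1) × Bool) = 2 * (m + 1) := by
    rw [Fintype.card_prod, Fintype.card_fin, Fintype.card_bool]
    ring
  have hmR : (400 : ℝ) ^ 60 ≤ m + 1 := by exact_mod_cast hm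
  have hsR : 4000 * (2 : ℝ) ^ n.primeFactors.card ≤ m + 1 := by exact_mod_cast hsm
  refine norm_arg5 (n := n) (by omega) (fun i => sg a (some i))
    (fun i k hik => Option.some_injective _ (sg_inj a h5 hik)) (sg_diff' a h5)
    (fun i => (i.1, !i.2)) ?_ ?_ ?_ x hx (m : ℝ) ?_ ?_ ?_ heq h4 ?_ ?_
  · rintro ⟨i, _ | _⟩ <;> simp [sg]
  · rintro ⟨i, _ | _⟩ <;> rfl
  · intro y hy
    rw [hcard]
    exact (cnt_le' (by omega) a h9 y hy).trans (by omega)
  · rw [hcard]; push_cast; linarith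
  · rw [hcard]; push_cast; linarith
  · intro j; rw [hcard]; push_cast; exact hxK j
  · rw [hcard]; push_cast; linarith
  · rw [hcard]; push_cast; linarith

end TightIndep.FV
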