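import Pool.Agent.Lib.MP_f31b39_co.FV.Defs
import Pool.Agent.Lib.MP_f31b39_co.NO.Ram
import Pool.Agent.Lib.MP_f31b39_co.NO.Cnt

/-!
# FV-Gm: sums over the faithful characters
-/

namespace TightIndep.FV

open Finset

private theorem Gm_div {n : ℕ} [NeZero n] (f : ℕ → ℝ) :
    ∑ h ∈ (univ : Finset (ZMod n)).erase 0, f (addOrderOf h) / (Nat.totient (addOrderOf h) : ℝ) =
      ∑ d ∈ n.divisors.erase 1, f d := by
  have hn : n ≠ 0 := NeZero.ne n
  have hmap : ∀ h ∈ (univ : Finset (ZMod n)).erase 0, addOrderOf h ∈ n.divisors.erase 1 := by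
    intro h hh
    rw [mem_erase] at hh ⊢
    refine ⟨fun h1 => hh.1 (AddMonoid.addOrderOf_eq_one_iff.1 h1), ?_⟩
    rw [Nat.mem_divisors]
    refine ⟨?_, hn⟩
    have := addOrderOf_dvd_card (x := h)
    rwa [ZMod.card] at this
  rw [← sum_fiberwise_of_maps_to hmap]
  refine sum_congr rfl fun d hd => ?_
  rw [mem_erase, Nat.mem_divisors] at hd
  have h1 : ∑ h ∈ ((univ : Finset (ZMod n)).erase 0).filter (fun h => addOrderOf h = d),
      f (addOrderOf h) / (Nat.totient (addOrderOf h) : ℝ) =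
      ∑ _h ∈ ((univ : Finset (ZMod n)).erase 0).filter (fun h => addOrderOf h = d), f d / (Nat.totient d : ℝ) :=
    sum_congr rfl fun h hh => by rw [(mem_filter.1 hh).2]
  have h2 : ((univ : Finset (ZMod n)).erase 0).filter (fun h => addOrderOf h = d) =
      univ.filter (fun h : ZMod n => addOrderOf h = d) := by
    ext h
    simp only [mem_filter, mem_erase, mem_univ, and_true, true_and]
    refine ⟨fun h => h.2, fun h3 => ⟨fun h4 => hd.1 ?_, h3⟩⟩
    rw [← h3, h4, addOrderOf_zero]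
  have hdpos : 0 < d := Nat.pos_of_dvd_of_pos hd.2.1 (Nat.pos_of_ne_zero hn)
  have h3 : (0 : ℝ) < Nat.totient d := by exact_mod_cast Nat.totient_pos.2 hdpos
  rw [h1, sum_const, nsmul_eq_mul, h2, IsAddCyclic.card_addOrderOf_eq_totient (by rw [ZMod.card]; exact hd.2.1)]
  field_simp

theorem momg {n : ℕ} [NeZero n] (hn : 1 < n) {κ : Type} [Fintype κ] [DecidableEq κ]
    (f : κ → ZMod n) (B : ℕ)
    (hB : ∀ h : ZMod n, h ≠ 0 → (univ.filter fun k => f k = h).card ≤ B) :
    ‖∑ u : (ZMod n)ˣ, ∑ k, (ZMod.stdAddChar ((u : ZMod n) * f k) : ℂ) -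
      (Nat.totient n : ℂ) * ((univ.filter fun k => f k = 0).card : ℂ)‖ ≤
      (Nat.totient n : ℝ) * ((B : ℝ) * 2 ^ n.primeFactors.card) := by
  classical
  have hopos : ∀ h : ZMod n, 0 < Nat.totient (addOrderOf h) := fun h =>
    Nat.totient_pos.2 (addOrderOf_pos h)
  obtain ⟨r, hr⟩ : ∃ r : ZMod n → ℝ, r = fun h =>
    (Nat.totient n : ℝ) * ((ArithmeticFunction.moebius (addOrderOf h) : ℤ) : ℝ) / (Nat.totient (addOrderOf h) : ℝ) := ⟨_, rfl⟩
  -- the Ramanujan sums
  have hR : ∀ h : ZMod n, ∑ u : (ZMod n)ˣ, (ZMod.stdAddChar ((u : ZMod n) * h) : ℂ) = (r h : ℂ) := by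
    intro h
    have h1 := NO.ram h
    have h2 : (Nat.totient (addOrderOf h) : ℂ) ≠ 0 := by exact_mod_cast (hopos h).ne'
    rw [hr]
    push_cast
    rw [eq_div_iff h2, mul_comm, h1]
  obtain ⟨N, hN⟩ : ∃ N : ZMod n → ℕ, N = fun h => (univ.filter fun k => f k = h).card := ⟨_, rfl⟩
  have hS : ∑ u : (ZMod n)ˣ, ∑ k, (ZMod.stdAddChar ((u : ZMod n) * f k) : ℂ) = ((∑ h : ZMod n, (N h : ℝ) * r h : ℝ) : ℂ) := by
    rw [sum_comm, sum_congr rfl fun k _ => hR (f k), ← sum_fiberwise univ f]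
    push_cast
    refine sum_congr rfl fun h _ => ?_
    have h1 : ∑ k ∈ univ.filter (fun k => f k = h), (r (f k) : ℂ) = ∑ _k ∈ univ.filter (fun k => f k = h), (r h : ℂ) :=
      sum_congr rfl fun k hk => by rw [(mem_filter.1 hk).2]
    rw [h1, sum_const, nsmul_eq_mul, hN]
  have hr0 : r 0 = Nat.totient n := by
    rw [hr]
    simp
  have hS2 : ∑ h : ZMod n, (N h : ℝ) * r h = (Nat.totient n : ℝ) * (N 0 : ℝ) +
      ∑ h ∈ (univ : Finset (ZMod n)).erase 0, (N h : ℝ) * r h := by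
    rw [← add_sum_erase univ (fun h : ZMod n => (N h : ℝ) * r h) (mem_univ 0), hr0, mul_comm]
  have hd : ∑ u : (ZMod n)ˣ, ∑ k, (ZMod.stdAddChar ((u : ZMod n) * f k) : ℂ) -
      (Nat.totient n : ℂ) * ((univ.filter fun k => f k = 0).card : ℂ) =
      ((∑ h ∈ (univ : Finset (ZMod n)).erase 0, (N h : ℝ) * r h : ℝ) : ℂ) := by
    have h0 : ((univ.filter fun k => f k = 0).card : ℂ) = (N 0 : ℂ) := by rw [hN]
    rw [hS, hS2, h0, Complex.ofReal_add, Complex.ofReal_mul, Complex.ofReal_natCast, Complex.ofReal_natCast, add_sub_cancel_left]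
  rw [hd, Complex.norm_real]
  have hφ : (0 : ℝ) ≤ Nat.totient n := Nat.cast_nonneg _
  have hB0 : (0 : ℝ) ≤ B := Nat.cast_nonneg _
  have h1 : ‖∑ h ∈ (univ : Finset (ZMod n)).erase 0, (N h : ℝ) * r h‖ ≤
      ∑ h ∈ (univ : Finset (ZMod n)).erase 0,
        ((Nat.totient n : ℝ) * ((B : ℝ) * |((ArithmeticFunction.moebius (addOrderOf h) : ℤ) : ℝ)|)) /
          (Nat.totient (addOrderOf h) : ℝ) := by
    refine (norm_sum_le _ _).trans (sum_le_sum fun h hh => ?_)
    have h2 : (N h : ℝ) ≤ B := by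
      rw [hN]
      exact_mod_cast hB h (mem_erase.1 hh).1
    have h3 : (0 : ℝ) < Nat.totient (addOrderOf h) := by exact_mod_cast hopos h
    have h4 : ‖(N h : ℝ) * r h‖ = ((Nat.totient n : ℝ) * ((N h : ℝ) * |((ArithmeticFunction.moebius (addOrderOf h) : ℤ) : ℝ)|)) /
        (Nat.totient (addOrderOf h) : ℝ) := by
      rw [hr]
      simp only
      rw [norm_mul, norm_div, norm_mul, Real.norm_natCast, Real.norm_natCast, Real.norm_natCast, Real.norm_eq_abs]
      ring
    rw [h4]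
    refine div_le_div_of_nonneg_right ?_ h3.le
    exact mul_le_mul_of_nonneg_left (mul_le_mul_of_nonneg_right h2 (abs_nonneg _)) hφ
  refine h1.trans ?_
  rw [Gm_div (n := n) (fun d => (Nat.totient n : ℝ) * ((B : ℝ) * |((ArithmeticFunction.moebius d : ℤ) : ℝ)|)), ← mul_sum, ← mul_sum]
  refine mul_le_mul_of_nonneg_left (mul_le_mul_of_nonneg_left ?_ hB0) hφ
  obtain ⟨e1, e2⟩ := NO.ep_em n hn
  have h2 : ∀ d : ℕ, |((ArithmeticFunction.moebius d : ℤ) : ℝ)| =
      (if ArithmeticFunction.moebius d = 1 then (1 : ℝ) else 0) + (if ArithmeticFunction.moebius d = -1 then (1 : ℝ) else 0) := by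
    intro d
    rcases ArithmeticFunction.moebius_eq_or d with h | h | h <;> rw [h] <;> norm_num
  rw [sum_congr rfl fun d _ => h2 d, sum_add_distrib, ← sum_filter, ← sum_filter, sum_const, sum_const, nsmul_eq_mul, nsmul_eq_mul,
    mul_one, mul_one]
  have h3 : ((n.divisors.erase 1).filter fun d => ArithmeticFunction.moebius d = 1).card = NO.ep n := rfl
  have h4 : ((n.divisors.erase 1).filter fun d => ArithmeticFunction.moebius d = -1).card ≤ NO.em n :=
    card_le_card (filter_subset_filter _ (erase_subset _ _))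
  rw [h3]
  have h5 : NO.ep n + ((n.divisors.erase 1).filter fun d => ArithmeticFunction.moebius d = -1).card ≤ 2 ^ n.primeFactors.card := by
    omega
  exact_mod_cast h5

end TightIndep.FV
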