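import Pool.Agent.Lib.MP_f31b39_co.FV.Gm

/-!
# FV-Mom4: the fourth moment
-/

namespace TightIndep.FV

open Finset

theorem mom4 {n : ℕ} [NeZero n] (hn : 1 < n) {ι : Type} [Fintype ι] [DecidableEq ι]
    (g : ι → ZMod n) (x : ZMod n → ℝ) (hx : ∀ j, (x j : ℂ) = ∑ i, ZMod.stdAddChar (j * g i))
    (A B : ℕ) (hA : A ≤ (univ.filter fun p : ι × ι × ι × ι =>
      g p.1 + g p.2.1 - g p.2.2.1 - g p.2.2.2 = 0).card)
    (hB : ∀ y : ZMod n, y ≠ 0 → (univ.filter fun p : ι × ι × ι × ι =>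
      g p.1 + g p.2.1 - g p.2.2.1 - g p.2.2.2 = y).card ≤ B) :
    (Nat.totient n : ℝ) * ((A : ℝ) - B * 2 ^ n.primeFactors.card) ≤
      ∑ u : (ZMod n)ˣ, x u ^ 4 := by
  obtain ⟨f, hf⟩ : ∃ f : ι × ι × ι × ι → ZMod n, f = fun p => g p.1 + g p.2.1 - g p.2.2.1 - g p.2.2.2 := ⟨_, rfl⟩
  have hB' : ∀ h : ZMod n, h ≠ 0 → (univ.filter fun k => f k = h).card ≤ B := by
    intro h hh
    rw [hf]
    exact hB h hh
  have hA' : A ≤ (univ.filter fun k => f k = 0).card := by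
    rw [hf]
    exact hA
  have hm := momg hn f B hB'
  have hS : ((∑ u : (ZMod n)ˣ, x u ^ 4 : ℝ) : ℂ) = ∑ u : (ZMod n)ˣ, ∑ k, (ZMod.stdAddChar ((u : ZMod n) * f k) : ℂ) := by
    push_cast
    refine sum_congr rfl fun u _ => ?_
    have h2 : (x u : ℂ) = ∑ k, (ZMod.stdAddChar (-((u : ZMod n) * g k)) : ℂ) := by
      have h3 : (starRingEnd ℂ) (x u : ℂ) = (x u : ℂ) := Complex.conj_ofReal _
      rw [← h3, hx, map_sum]
      refine sum_congr rfl fun k _ => ?_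
      rw [AddChar.map_neg_eq_conj]
    have h4 : (x u : ℂ) ^ 4 = (∑ i, (ZMod.stdAddChar ((u : ZMod n) * g i) : ℂ)) *
        ((∑ i, (ZMod.stdAddChar ((u : ZMod n) * g i) : ℂ)) *
        ((∑ i, (ZMod.stdAddChar (-((u : ZMod n) * g i)) : ℂ)) * ∑ i, (ZMod.stdAddChar (-((u : ZMod n) * g i)) : ℂ))) := by
      rw [← h2, ← hx]
      ring
    have h5 : ∀ p : ι × ι × ι × ι, (ZMod.stdAddChar ((u : ZMod n) * f p) : ℂ) =
        ZMod.stdAddChar ((u : ZMod n) * g p.1) * (ZMod.stdAddChar ((u : ZMod n) * g p.2.1) *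
          (ZMod.stdAddChar (-((u : ZMod n) * g p.2.2.1)) * ZMod.stdAddChar (-((u : ZMod n) * g p.2.2.2)))) := by
      intro p
      rw [← AddChar.map_add_eq_mul, ← AddChar.map_add_eq_mul, ← AddChar.map_add_eq_mul, hf]
      congr 1
      ring
    rw [h4, sum_congr rfl fun p _ => h5 p]
    simp only [Fintype.sum_prod_type, ← Finset.mul_sum, ← Finset.sum_mul]
  rw [← hS] at hm
  have h5 : ((∑ u : (ZMod n)ˣ, x u ^ 4 : ℝ) : ℂ) - (Nat.totient n : ℂ) * ((univ.filter fun k => f k = 0).card : ℂ) =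
      (((∑ u : (ZMod n)ˣ, x u ^ 4) - (Nat.totient n : ℝ) * ((univ.filter fun k => f k = 0).card : ℝ) : ℝ) : ℂ) := by
    push_cast
    ring
  rw [h5, Complex.norm_real, Real.norm_eq_abs] at hm
  have h6 := (abs_le.mp hm).1
  have h7 : (A : ℝ) ≤ ((univ.filter fun k => f k = 0).card : ℝ) := by exact_mod_cast hA'
  have h8 : (Nat.totient n : ℝ) * (A : ℝ) ≤ (Nat.totient n : ℝ) * ((univ.filter fun k => f k = 0).card : ℝ) :=
    mul_le_mul_of_nonneg_left h7 (Nat.cast_nonneg _)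
  linarith

end TightIndep.FV
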