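import Pool.Agent.Lib.MP_f31b39_co.FV.Defs
import Pool.Agent.Lib.MP_f31b39_co.AS.Newton
import Pool.Agent.Lib.MP_f31b39_co.AS.Sph

/-!
# FV-Ten: the equation of a character for `t = 10`
-/

namespace TightIndep.FV

open Finset

private theorem ten_mon {G : Type} [AddCommGroup G] {m : ℕ} (a : Fin m → G) (χ : AddChar G ℂ)
    (v : Fin m → ℤ) : mon (fun i => χ (a i)) v = χ (∑ i, v i • a i) := by
  unfold mon
  rw [addChar_map_sum]
  refine prod_congr rfl fun i _ => ?_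
  rw [AddChar.map_zsmul_eq_zpow]

private theorem ten_cc1 (P : ℕ → ℂ) : cc P 1 = P 1 := by
  rw [show (1 : ℕ) = 0 + 1 from rfl, cc_succ]
  simp [cc_zero]

private theorem ten_cc2 (P : ℕ → ℂ) : cc P 2 = (P 1 ^ 2 + P 2) / 2 := by
  have h1 := ten_cc1 P
  rw [show (2 : ℕ) = 1 + 1 from rfl, cc_succ, sum_range_succ, sum_range_one]
  norm_num [cc_zero, h1]
  ring

private theorem ten_cc3 (P : ℕ → ℂ) : cc P 3 = (P 1 ^ 3 + 3 * P 1 * P 2 + 2 * P 3) / 6 := by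
  have h1 := ten_cc1 P
  have h2 := ten_cc2 P
  rw [show (3 : ℕ) = 2 + 1 from rfl, cc_succ, sum_range_succ, sum_range_succ, sum_range_one]
  norm_num [cc_zero, h1, h2]
  ring

private theorem ten_cc4 (P : ℕ → ℂ) : cc P 4 =
    (P 1 ^ 4 + 6 * P 1 ^ 2 * P 2 + 3 * P 2 ^ 2 + 8 * P 1 * P 3 + 6 * P 4) / 24 := by
  have h1 := ten_cc1 P
  have h2 := ten_cc2 P
  have h3 := ten_cc3 P
  rw [show cc P 4 = (∑ i ∈ range (3 + 1), P (i + 1) * cc P (3 - i)) / (((3 : ℕ) : ℂ) + 1) from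
    cc_succ P 3, sum_range_succ, sum_range_succ, sum_range_succ,
    sum_range_one]
  norm_num [cc_zero, h1, h2, h3]
  ring

theorem cc_five (P : ℕ → ℂ) : cc P 5 = (P 1 ^ 5 + 10 * P 1 ^ 3 * P 2 + 15 * P 1 * P 2 ^ 2 +
    20 * P 1 ^ 2 * P 3 + 20 * P 2 * P 3 + 30 * P 1 * P 4 + 24 * P 5) / 120 := by
  have h1 := ten_cc1 P
  have h2 := ten_cc2 P
  have h3 := ten_cc3 P
  have h4 := ten_cc4 P
  rw [show cc P 5 = (∑ i ∈ range (4 + 1), P (i + 1) * cc P (4 - i)) / (((4 : ℕ) : ℂ) + 1) from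
    cc_succ P 4, sum_range_succ, sum_range_succ, sum_range_succ,
    sum_range_succ, sum_range_one]
  norm_num [cc_zero, h1, h2, h3, h4]
  ring

private theorem ten_sum {G : Type} [AddCommGroup G] [Fintype G] {m : ℕ} (a : Fin m → G)
    (h : ∀ v ∈ rel a, v ≠ 0 → 11 ≤ nrm v) (hG : Fintype.card G = bound m 10) (f : G → ℂ) :
    ∑ u ∈ ball m 5, f (∑ i, u i • a i) = ∑ g, f g := by
  refine (sum_image_fam 10 a h (ball m 5) ?_ ?_).2 f
  · intro u hu u' hu'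
    rw [mem_ball] at hu hu'
    have h3 := nrm_sub_le u u'
    omega
  · rw [hG, card_ball, ← bound_even m 5]

theorem ten_eq {G : Type} [AddCommGroup G] [Fintype G] {m : ℕ} (a : Fin m → G)
    (h : ∀ v ∈ rel a, v ≠ 0 → 11 ≤ nrm v) (hG : Fintype.card G = bound m 10)
    (χ : AddChar G ℂ) (hχ : χ ≠ 1) :
    F5 (m : ℂ) (1 + ∑ i, (χ (a i) + (χ (a i))⁻¹)) (1 + ∑ i, (χ (a i) ^ 2 + (χ (a i))⁻¹ ^ 2))
      (1 + ∑ i, (χ (a i) ^ 3 + (χ (a i))⁻¹ ^ 3)) (1 + ∑ i, (χ (a i) ^ 4 + (χ (a i))⁻¹ ^ 4))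
      (1 + ∑ i, (χ (a i) ^ 5 + (χ (a i))⁻¹ ^ 5)) = 0 := by
  have hx : ∀ i, χ (a i) ≠ 0 := by
    intro i h0
    have h1 : χ (a i + -a i) = 1 := by rw [add_neg_cancel, AddChar.map_zero_eq_one]
    rw [AddChar.map_add_eq_mul, h0, zero_mul] at h1
    exact zero_ne_one h1
  have hsum : ∑ v ∈ ball m 5, mon (fun i => χ (a i)) v = 0 := by
    rw [← AddChar.sum_eq_zero_of_ne_one hχ, ← ten_sum a h hG (fun g => χ g)]
    exact sum_congr rfl fun v _ => ten_mon a χ v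
  rw [sum_ball, newton_even _ hx, cc_five] at hsum
  have e1 : ¬ Even 1 := by decide
  have e2 : Even 2 := by decide
  have e3 : ¬ Even 3 := by decide
  have e4 : Even 4 := by decide
  have e5 : ¬ Even 5 := by decide
  simp only [pw, e1, e2, e3, e4, e5, if_true, if_false, sub_zero, pow_one] at hsum
  unfold F5
  linear_combination 120 * hsum

end TightIndep.FV
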